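import Pool.Agent.Lib.SE.U.Spec

/-!
# PROJECT SE-U, module uQ: a symmetric endomorphism satisfies a rational quadratic equation
-/

set_option autoImplicit false

open Module

noncomputable section

namespace SEU

open HC HC.E HC.SE SEB SES

namespace uQ_aux

theorem smul_eq {V : Type} [NormedAddCommGroup V] [NormedSpace ℂ V] (c : ℂ) (w : V) :
    c • w = c.re • w + c.im • (Complex.I • w) := by
  rw [← Complex.coe_smul, ← Complex.coe_smul, smul_smul, ← add_smul, Complex.re_add_im]

/-- the complex linear map -/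
def lin {T : AV} {X : Module.End ℝ T.V} (hC : Cx X) : Module.End ℂ T.V where
  toFun := X
  map_add' := map_add X
  map_smul' := by
    intro c v
    rw [smul_eq c v, map_add, map_smul, map_smul, hC, RingHom.id_apply, ← smul_eq]

theorem lin_apply {T : AV} {X : Module.End ℝ T.V} (hC : Cx X) (v : T.V) : lin hC v = X v := rfl

theorem self {T : AV} {E : T.V →ₗ[ℝ] T.V →ₗ[ℝ] ℝ} (hE : IsRf T E) {X : Module.End ℝ T.V}
    (hS : Sy E X) (v : T.V) : E (X v) v = 0 := by
  have h1 := hS v v
  have h2 := hE.2.1 v (X v)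
  linarith

/-- eigenvalues are real -/
theorem real {T : AV} {E : T.V →ₗ[ℝ] T.V →ₗ[ℝ] ℝ} (hE : IsRf T E) {X : Module.End ℝ T.V}
    (hS : Sy E X) {v : T.V} (hv : v ≠ 0) {μ : ℂ} (h : X v = μ • v) : μ.im = 0 := by
  have h1 := self hE hS v
  rw [h, smul_eq, map_add, map_smul, map_smul, LinearMap.add_apply, LinearMap.smul_apply,
    LinearMap.smul_apply, smul_eq_mul, smul_eq_mul] at h1
  have h2 : E v v = 0 := by
    have := hE.2.1 v v
    linarith
  rw [h2, mul_zero, zero_add] at h1
  exact (mul_eq_zero.1 h1).resolve_right (hE.2.2.2 v hv).ne'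

theorem sy_sub {T : AV} {E : T.V →ₗ[ℝ] T.V →ₗ[ℝ] ℝ} {X : Module.End ℝ T.V} (hS : Sy E X) (r : ℝ)
    (u w : T.V) : E (X u - r • u) w = E u (X w - r • w) := by
  rw [map_sub, LinearMap.sub_apply, hS, map_smul, LinearMap.smul_apply, map_sub, map_smul]

/-- no nilpotent part -/
theorem nil {T : AV} {E : T.V →ₗ[ℝ] T.V →ₗ[ℝ] ℝ} (hE : IsRf T E) {X : Module.End ℝ T.V}
    (hC : Cx X) (hS : Sy E X) {r : ℝ} (h : ∀ v, X (X v - r • v) - r • (X v - r • v) = 0) :
    X = r • 1 := by
  apply LinearMap.ext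
  intro v
  rw [LinearMap.smul_apply, Module.End.one_apply]
  by_contra hne
  have hw : X v - r • v ≠ 0 := fun h0 => hne (sub_eq_zero.1 h0)
  have h1 := hE.2.2.2 _ hw
  set w := X v - r • v with hwd
  have h2 : Complex.I • w = X (Complex.I • v) - r • (Complex.I • v) := by
    rw [hwd, smul_sub, hC, smul_comm r Complex.I v]
  have h3 : E (Complex.I • w) w = E (Complex.I • v) (X w - r • w) := by
    rw [h2]
    exact sy_sub hS r _ _
  rw [h3, h v, map_zero] at h1
  exact lt_irrefl _ h1

theorem rat_sq {T : AV} {X : Module.End ℝ T.V} (h : RatEnd T X) : RatEnd T (X * X) := by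
  intro v hv
  obtain ⟨N, hN, h1⟩ := h v hv
  obtain ⟨M, hM, h2⟩ := h _ h1
  refine ⟨M * N, mul_ne_zero hM hN, ?_⟩
  rw [Module.End.mul_apply, mul_smul, ← map_nsmul]
  exact h2

/-- the complex quadratic equation -/
theorem quad {V : Type} [AddCommGroup V] [Module ℂ V] [FiniteDimensional ℂ V]
    (h2 : finrank ℂ V = 2) (f : Module.End ℂ V) : ∃ a b : ℂ, f.HasEigenvalue a ∧
      f.HasEigenvalue b ∧ ∀ v, f (f v - b • v) - a • (f v - b • v) = 0 := by
  have hm := f.charpoly_monic
  have hd : f.charpoly.natDegree = 2 := by rw [LinearMap.charpoly_natDegree, h2]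
  have hd0 : f.charpoly.degree ≠ 0 := by
    rw [Polynomial.degree_eq_natDegree hm.ne_zero, hd]
    norm_num
  obtain ⟨a, ha⟩ := IsAlgClosed.exists_root f.charpoly hd0
  obtain ⟨q, hq⟩ := Polynomial.dvd_iff_isRoot.2 ha
  have hqm : q.Monic := (Polynomial.monic_X_sub_C a).of_mul_monic_left (hq ▸ hm)
  have hqd : q.natDegree = 1 := by
    have h3 := congrArg Polynomial.natDegree hq
    rw [hd, (Polynomial.monic_X_sub_C a).natDegree_mul hqm, Polynomial.natDegree_X_sub_C] at h3
    omega
  have hq1 := hqm.eq_X_add_C hqd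
  have hb : f.charpoly.IsRoot (-q.coeff 0) := by
    rw [Polynomial.IsRoot.def, hq, Polynomial.eval_mul, hq1]
    simp
  refine ⟨a, -q.coeff 0, ?_, ?_, ?_⟩
  · exact (Module.End.hasEigenvalue_iff_isRoot_charpoly _ _).2 ha
  · exact (Module.End.hasEigenvalue_iff_isRoot_charpoly _ _).2 hb
  · intro v
    have h4 := f.aeval_self_charpoly
    rw [hq, hq1, map_mul, map_sub, map_add, Polynomial.aeval_X, Polynomial.aeval_C,
      Polynomial.aeval_C] at h4
    have h5 := LinearMap.congr_fun h4 v
    rw [Module.End.mul_apply, LinearMap.sub_apply, LinearMap.add_apply, LinearMap.zero_apply,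
      Module.algebraMap_end_apply, Module.algebraMap_end_apply] at h5
    rw [neg_smul, sub_neg_eq_add]
    exact h5

end uQ_aux

open uQ_aux in
theorem tuQ : S_uL → S_uQ := by
  intro hL T E hE h2 X hR hC hS hn
  obtain ⟨a, b, ha, hb, hab⟩ := quad h2 (lin hC)
  have hai : a.im = 0 := by
    obtain ⟨v, hv⟩ := ha.exists_hasEigenvector
    exact real hE hS hv.2 hv.apply_eq_smul
  have hbi : b.im = 0 := by
    obtain ⟨v, hv⟩ := hb.exists_hasEigenvector
    exact real hE hS hv.2 hv.apply_eq_smul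
  have har : ∀ w : T.V, a • w = a.re • w := by
    intro w
    rw [smul_eq, hai, zero_smul, add_zero]
  have hbr : ∀ w : T.V, b • w = b.re • w := by
    intro w
    rw [smul_eq, hbi, zero_smul, add_zero]
  have key : ∀ v : T.V, X (X v - b.re • v) - a.re • (X v - b.re • v) = 0 := by
    intro v
    have := hab v
    rw [har, hbr, lin_apply, lin_apply] at this
    exact this
  have hne : a.re ≠ b.re := by
    intro h
    rw [h] at key
    exact hn ⟨b.re, nil hE hC hS key⟩
  have hXX : X * X = (-(a.re * b.re)) • 1 + (a.re + b.re) • X := by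
    apply LinearMap.ext
    intro v
    have h1 := key v
    rw [map_sub, map_smul, sub_eq_zero] at h1
    rw [Module.End.mul_apply, LinearMap.add_apply, LinearMap.smul_apply, LinearMap.smul_apply,
      Module.End.one_apply, sub_eq_iff_eq_add.1 h1]
    module
  obtain ⟨p, q, hp, hq⟩ := hL T X (X * X) hR (rat_sq hR) hn _ _ hXX
  refine ⟨q, p, ?_, ?_⟩
  · rw [← hp, ← hq, hXX, add_comm]
  · have h3 : (0 : ℝ) < ((q ^ 2 + 4 * p : ℚ) : ℝ) := by
      push_cast
      rw [← hp, ← hq]
      have h4 : a.re - b.re ≠ 0 := sub_ne_zero.2 hne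
      have h5 : 0 < (a.re - b.re) ^ 2 := by positivity
      nlinarith
    exact_mod_cast h3

end SEU
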