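import Pool.Agent.Lib.SE.U.Spec
import Pool.Agent.Lib.HC.L.B

/-!
# PROJECT SE-U, module uR: real multiplication from a quadratic equation
-/

set_option autoImplicit false

open Module

noncomputable section

namespace SEU

open HC HC.E HC.SE SEB SES

namespace uR_aux

/-- The quadratic polynomial. -/
def pol (p q : ℚ) : Polynomial ℚ :=
  Polynomial.X ^ 2 - Polynomial.C p * Polynomial.X - Polynomial.C q

theorem natDegree_pol (p q : ℚ) : (pol p q).natDegree = 2 := by
  unfold pol
  compute_degree!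

theorem monic_pol (p q : ℚ) : (pol p q).Monic := by
  unfold pol
  monicity!

theorem irr_pol (p q : ℚ) (h : ¬ ∃ d : ℚ, d ^ 2 = p ^ 2 + 4 * q) : Irreducible (pol p q) := by
  rw [(monic_pol p q).irreducible_iff_roots_eq_zero_of_degree_le_three
    (natDegree_pol p q).ge (by rw [natDegree_pol]; norm_num)]
  refine Multiset.eq_zero_of_forall_notMem fun x hx => h ⟨2 * x - p, ?_⟩
  have h1 : (pol p q).eval x = 0 := Polynomial.isRoot_of_mem_roots hx
  unfold pol at h1
  simp only [Polynomial.eval_sub, Polynomial.eval_pow, Polynomial.eval_X, Polynomial.eval_mul,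
    Polynomial.eval_C] at h1
  linear_combination 4 * h1

section
variable {T : AV}

/-- A complex linear map. -/
def cl (X : Module.End ℝ T.V) (h : Cx X) : Module.End ℂ T.V where
  toFun := X
  map_add' := X.map_add
  map_smul' c v := by
    have h1 : ∀ w : T.V, c • w = c.re • w + c.im • (Complex.I • w) := by
      intro w
      conv_lhs => rw [← Complex.re_add_im c]
      rw [add_smul, mul_smul, Complex.coe_smul, Complex.coe_smul]
    rw [h1, map_add, map_smul, map_smul, h, RingHom.id_apply, ← h1]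

theorem cl_apply (X : Module.End ℝ T.V) (h : Cx X) (v : T.V) : cl X h v = X v := rfl

theorem cl_pow (X : Module.End ℝ T.V) (h : Cx X) (n : ℕ) (v : T.V) :
    (cl X h ^ n) v = (X ^ n) v := by
  induction n generalizing v with
  | zero => rfl
  | succ n ih => rw [pow_succ, pow_succ, Module.End.mul_apply, Module.End.mul_apply, ih, cl_apply]

/-- Evaluation at `X`. -/
def ev (X : Module.End ℝ T.V) (h : Cx X) : Polynomial ℚ →+* Module.End ℂ T.V :=
  Polynomial.eval₂RingHom' ((algebraMap ℂ (Module.End ℂ T.V)).comp (algebraMap ℚ ℂ)) (cl X h)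
    fun a => Algebra.commutes (algebraMap ℚ ℂ a) (cl X h)

theorem ev_C (X : Module.End ℝ T.V) (h : Cx X) (a : ℚ) :
    ev X h (Polynomial.C a) = algebraMap ℂ (Module.End ℂ T.V) (a : ℂ) :=
  Polynomial.eval₂_C _ _

theorem ev_X (X : Module.End ℝ T.V) (h : Cx X) : ev X h Polynomial.X = cl X h :=
  Polynomial.eval₂_X _ _

theorem ev_pol (X : Module.End ℝ T.V) (h : Cx X) (p q : ℚ)
    (hX : X * X = (p : ℝ) • X + (q : ℝ) • 1) : ev X h (pol p q) = 0 := by
  unfold pol
  rw [map_sub, map_sub, map_mul, map_pow, ev_C, ev_C, ev_X]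
  refine LinearMap.ext fun v => ?_
  have h1 := LinearMap.congr_fun hX v
  change X (X v) = (p : ℝ) • X v + (q : ℝ) • v at h1
  rw [LinearMap.sub_apply, LinearMap.sub_apply, Module.End.mul_apply, pow_two,
    Module.End.mul_apply, Module.algebraMap_end_apply, Module.algebraMap_end_apply, cl_apply,
    cl_apply, h1, LinearMap.zero_apply]
  have h2 : ∀ (x : ℚ) (w : T.V), (x : ℂ) • w = (x : ℝ) • w := by
    intro x w
    rw [← Complex.coe_smul]
    norm_num
  rw [h2, h2]
  abel

theorem rat_ev (X : Module.End ℝ T.V) (h : Cx X) (hr : RatEnd T X) (g : Polynomial ℚ) :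
    RatEnd T ((ev X h g).restrictScalars ℝ) := by
  induction g using Polynomial.induction_on' with
  | add f g hf hg =>
    have h1 : (ev X h (f + g)).restrictScalars ℝ =
        (ev X h f).restrictScalars ℝ + (ev X h g).restrictScalars ℝ := by
      rw [map_add]
      rfl
    rw [h1]
    exact hf.add hg
  | monomial n a =>
    have hp : ∀ n : ℕ, RatEnd T (X ^ n) := by
      intro n
      induction n with
      | zero => exact RatEnd.one
      | succ n ih => rw [pow_succ]; exact ih.mul hr
    have h1 : (ev X h (Polynomial.monomial n a)).restrictScalars ℝ = (a : ℝ) • X ^ n := by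
      refine LinearMap.ext fun v => ?_
      rw [← Polynomial.C_mul_X_pow_eq_monomial, map_mul, map_pow, ev_C, ev_X]
      change (algebraMap ℂ (Module.End ℂ T.V) (a : ℂ)) ((cl X h ^ n) v) = (a : ℝ) • (X ^ n) v
      rw [Module.algebraMap_end_apply, cl_pow, ← Complex.coe_smul]
      norm_num
    rw [h1]
    exact (hp n).qsmul a

end

/-- A quadratic number is real. -/
theorem real_of (z : ℂ) (p q : ℚ) (hD : 0 < p ^ 2 + 4 * q)
    (hz : z ^ 2 - (p : ℂ) * z - (q : ℂ) = 0) : (starRingEnd ℂ) z = z := by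
  have h1 : (2 * z - p) ^ 2 = ((p ^ 2 + 4 * q : ℚ) : ℂ) := by
    push_cast
    linear_combination 4 * hz
  have h2 : (2 * z - (p : ℂ)).im = 2 * z.im := by
    simp
  have h3 := congrArg Complex.re h1
  have h4 := congrArg Complex.im h1
  rw [pow_two, Complex.mul_re, Complex.ratCast_re] at h3
  rw [pow_two, Complex.mul_im, Complex.ratCast_im] at h4
  have h5 : (0 : ℝ) < ((p ^ 2 + 4 * q : ℚ) : ℝ) := by exact_mod_cast hD
  have h6 : (2 * z - (p : ℂ)).im = 0 := by
    rcases mul_eq_zero.1 (show (2 * z - (p : ℂ)).re * (2 * z - (p : ℂ)).im = 0 by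
      linarith [mul_comm (2 * z - (p : ℂ)).re (2 * z - (p : ℂ)).im]) with h | h
    · exfalso
      rw [h] at h3
      nlinarith [mul_self_nonneg (2 * z - (p : ℂ)).im]
    · exact h
  rw [h2] at h6
  exact Complex.conj_eq_iff_im.2 (by linarith)

/-- The field is totally real. -/
theorem tot_real (p q : ℚ) [hf : Fact (Irreducible (pol p q))] (hD : 0 < p ^ 2 + 4 * q) :
    NumberField.IsTotallyReal (AdjoinRoot (pol p q)) := by
  refine ⟨fun v => ?_⟩
  rw [NumberField.InfinitePlace.isReal_iff, NumberField.ComplexEmbedding.isReal_iff]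
  set φ := v.embedding with hφ
  have hC : ∀ (ψ : AdjoinRoot (pol p q) →+* ℂ) (a : ℚ),
      ψ (AdjoinRoot.mk (pol p q) (Polynomial.C a)) = (a : ℂ) := fun ψ a =>
    eq_ratCast ((ψ.comp (AdjoinRoot.mk (pol p q))).comp Polynomial.C) a
  have hroot : φ (AdjoinRoot.mk (pol p q) Polynomial.X) ^ 2 -
      (p : ℂ) * φ (AdjoinRoot.mk (pol p q) Polynomial.X) - (q : ℂ) = 0 := by
    have h1 : φ (AdjoinRoot.mk (pol p q) (pol p q)) = 0 := by
      rw [AdjoinRoot.mk_self, map_zero]
    have h2 : φ (AdjoinRoot.mk (pol p q) (Polynomial.X ^ 2 - Polynomial.C p * Polynomial.X -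
      Polynomial.C q)) = 0 := h1
    rw [map_sub, map_sub, map_sub, map_sub, map_mul, map_mul, map_pow, map_pow, hC, hC] at h2
    exact h2
  refine RingHom.ext fun x => ?_
  obtain ⟨g, rfl⟩ := AdjoinRoot.mk_surjective x
  have h3 : ((NumberField.ComplexEmbedding.conjugate φ).comp (AdjoinRoot.mk (pol p q))) =
      φ.comp (AdjoinRoot.mk (pol p q)) := by
    refine Polynomial.ringHom_ext (fun a => ?_) ?_
    · change (NumberField.ComplexEmbedding.conjugate φ) (AdjoinRoot.mk (pol p q) _) =
        φ (AdjoinRoot.mk (pol p q) _)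
      rw [hC, hC]
    · exact real_of _ p q hD hroot
  exact RingHom.congr_fun h3 g

end uR_aux

open uR_aux in
theorem tuR : S_uR := by
  intro T hT X hr hX p q hXX hD hns
  haveI : Fact (Irreducible (pol p q)) := ⟨irr_pol p q hns⟩
  haveI := tot_real p q hD
  have hker : ∀ a ∈ Ideal.span {pol p q}, ev X hX a = 0 := by
    intro a ha
    obtain ⟨k, rfl⟩ := Ideal.mem_span_singleton'.1 ha
    rw [map_mul, ev_pol X hX p q hXX, mul_zero]
  let ι : AdjoinRoot (pol p q) →+* Module.End ℂ T.V :=
    Ideal.Quotient.lift (Ideal.span {pol p q}) (ev X hX) hker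
  have hι : ∀ g, ι (AdjoinRoot.mk (pol p q) g) = ev X hX g := fun g => rfl
  refine ⟨AdjoinRoot (pol p q), inferInstance, inferInstance, inferInstance, ι, ?_, fun x => ?_⟩
  · rw [hT]
    have h1 := (AdjoinRoot.powerBasis (irr_pol p q hns).ne_zero).finrank
    rw [AdjoinRoot.powerBasis_dim, natDegree_pol] at h1
    rw [← h1]
  · obtain ⟨g, rfl⟩ := AdjoinRoot.mk_surjective x
    rw [hι]
    exact rat_ev X hX hr g

end SEU
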