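import Pool.Agent.Lib.SE.U.Spec

/-!
# PROJECT SE-U, module uS: splitting by a rational projection (helper87)

The proof uses the Riemann form (orthogonal projection onto the range of `X - a`), so it also covers `a = b`.
-/

set_option autoImplicit false

open Module

noncomputable section

namespace SEU

open HC HC.E HC.SE SEB SES

namespace uS_aux

variable {T : AV}

/-- A complex number acts by its real and imaginary parts. -/
theorem cs (z : ℂ) (v : T.V) : z • v = z.re • v + z.im • (Complex.I • v) := by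
  have h1 : z.re • v = (z.re : ℂ) • v := (Complex.coe_smul _ _).symm
  have h2 : z.im • (Complex.I • v) = (z.im : ℂ) • (Complex.I • v) := (Complex.coe_smul _ _).symm
  rw [h1, h2, smul_smul, ← add_smul, Complex.re_add_im]

theorem cs' (z : ℂ) (v : T.V) : Complex.I • z • v = z.re • (Complex.I • v) - z.im • v := by
  have h1 : (Complex.I * z).re = -z.im := by simp
  have h2 : (Complex.I * z).im = z.re := by simp
  rw [smul_smul, cs (Complex.I * z) v, h1, h2, add_comm, neg_smul, sub_eq_add_neg]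

/-- The complex linear version of an endomorphism. -/
theorem cx_lin (X : Module.End ℝ T.V) (h : Cx X) : ∃ Y : T.V →ₗ[ℂ] T.V, ∀ v, Y v = X v := by
  refine ⟨{ toFun := X, map_add' := map_add X, map_smul' := ?_ }, fun v => rfl⟩
  intro z v
  rw [RingHom.id_apply, cs z v, cs z (X v), map_add, map_smul, map_smul, h]

/-- The lattice of a complex subspace. -/
def lat (W : Submodule ℂ T.V) : Submodule ℤ W := T.L.comap (W.subtype.restrictScalars ℤ)

theorem mem_lat (W : Submodule ℂ T.V) (x : W) : x ∈ lat W ↔ (x : T.V) ∈ T.L := Iff.rfl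

theorem disc_lat (W : Submodule ℂ T.V) : DiscreteTopology (lat W) := by
  have e : Topology.IsEmbedding (fun x : lat W => (⟨((x : W) : T.V), x.2⟩ : T.L)) := by
    refine ⟨?_, ?_⟩
    · have h1 : Topology.IsInducing (fun p : T.L => (p : T.V)) := Topology.IsInducing.subtypeVal
      have h2 : Topology.IsInducing ((fun p : T.L => (p : T.V)) ∘
          (fun x : lat W => (⟨((x : W) : T.V), x.2⟩ : T.L))) := by
        have h3 : Topology.IsInducing (fun x : lat W => ((x : W) : T.V)) :=
          Topology.IsInducing.subtypeVal.comp Topology.IsInducing.subtypeVal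
        exact h3
      exact (h1.of_comp_iff.1 h2)
    · intro x y hxy
      apply Subtype.ext
      apply Subtype.ext
      exact congrArg (fun p : T.L => (p : T.V)) hxy
  exact e.discreteTopology

/-- A rational complex subspace is an abelian variety. -/
theorem ex_sub (W : Submodule ℂ T.V) (hs : Submodule.span ℝ (lat W : Set W) = ⊤) :
    ∃ (A : AV) (e : A.V ≃ₗ[ℂ] W), ∀ x : A.V, x ∈ A.L ↔ ((e x : W) : T.V) ∈ T.L := by
  have hd : DiscreteTopology (lat W) := disc_lat W
  have hl : IsZLattice ℝ (lat W) := ⟨hs⟩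
  obtain ⟨E, hE1, hE2, hE3, hE4⟩ := T.pol
  let f : W →ₗ[ℝ] T.V := W.subtype.restrictScalars ℝ
  refine ⟨{ V := W, L := lat W, pol := ⟨E.compl₁₂ f f, ?_, ?_, ?_, ?_⟩ },
    LinearEquiv.refl ℂ W, fun x => Iff.rfl⟩
  · intro u hu v hv
    exact hE1 _ hu _ hv
  · intro u v
    exact hE2 _ _
  · intro u v
    exact hE3 (u : T.V) (v : T.V)
  · intro v hv
    exact hE4 (v : T.V) (fun h => hv (Subtype.ext h))

/-- The range of a rational complex linear projection is rational. -/
theorem span_lat (Q : T.V →ₗ[ℂ] T.V) (W : Submodule ℂ T.V) (hW : ∀ v, Q v ∈ W)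
    (hQ : ∀ v ∈ W, Q v = v) (hr : ∀ v ∈ T.L, ∃ N : ℕ, N ≠ 0 ∧ N • Q v ∈ T.L) :
    Submodule.span ℝ (lat W : Set W) = ⊤ := by
  rw [eq_top_iff]
  rintro x -
  have key : ∀ v ∈ Submodule.span ℝ (T.L : Set T.V), (⟨Q v, hW v⟩ : W) ∈
      Submodule.span ℝ (lat W : Set W) := by
    intro v hv
    induction hv using Submodule.span_induction with
    | mem y hy =>
      obtain ⟨N, hN, hNL⟩ := hr y hy
      have h1 : N • (⟨Q y, hW y⟩ : W) ∈ lat W := (mem_lat _ _).2 hNL
      have h2 : (⟨Q y, hW y⟩ : W) = ((N : ℝ)⁻¹) • (N • (⟨Q y, hW y⟩ : W)) := by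
        rw [← Nat.cast_smul_eq_nsmul ℝ N, smul_smul, inv_mul_cancel₀ (Nat.cast_ne_zero.2 hN),
          one_smul]
      rw [h2]
      exact Submodule.smul_mem _ _ (Submodule.subset_span h1)
    | zero =>
      have h3 : (⟨Q 0, hW 0⟩ : W) = 0 := Subtype.ext (map_zero Q)
      rw [h3]
      exact Submodule.zero_mem _
    | add y z _ _ hy hz =>
      have h3 : (⟨Q (y + z), hW (y + z)⟩ : W) = ⟨Q y, hW y⟩ + ⟨Q z, hW z⟩ :=
        Subtype.ext (map_add Q y z)
      rw [h3]
      exact Submodule.add_mem _ hy hz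
    | smul c y _ hy =>
      have h3 : (⟨Q (c • y), hW (c • y)⟩ : W) = c • ⟨Q y, hW y⟩ := by
        apply Subtype.ext
        change Q (c • y) = c • Q y
        rw [← Complex.coe_smul, ← Complex.coe_smul, map_smul]
      rw [h3]
      exact Submodule.smul_mem _ _ hy
  have h1 : (x : T.V) ∈ Submodule.span ℝ (T.L : Set T.V) := by
    rw [T.latt.span_top]
    exact Submodule.mem_top
  have h2 := key _ h1
  have h3 : (⟨Q (x : T.V), hW _⟩ : W) = x := Subtype.ext (hQ _ x.2)
  rwa [h3] at h2

/-- Vectors on which all lattice vectors vanish. -/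
theorem ex_lat (f : T.V →ₗ[ℝ] ℝ) (v : T.V) (h : f v ≠ 0) : ∃ y ∈ T.L, f y ≠ 0 := by
  by_contra hcon
  push Not at hcon
  apply h
  have hv : v ∈ Submodule.span ℝ (T.L : Set T.V) := by
    rw [T.latt.span_top]
    exact Submodule.mem_top
  induction hv using Submodule.span_induction with
  | mem y hy => exact hcon y hy
  | zero => exact map_zero f
  | add y z _ _ hy hz =>
    rw [map_add]
    by_cases h1 : f y = 0
    · by_cases h2 : f z = 0
      · rw [h1, h2, add_zero]
      · exact absurd (hz h2) h2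
    · exact absurd (hy h1) h1
  | smul c y _ hy =>
    rw [map_smul]
    by_cases h1 : f y = 0
    · rw [h1, smul_zero]
    · exact absurd (hy h1) h1

/-- Splitting off a rational complex line. -/
theorem split (h2 : finrank ℂ T.V = 2) (P : T.V →ₗ[ℂ] T.V) (w : T.V) (hw : w ≠ 0)
    (hP : ∀ v, P v ∈ Submodule.span ℂ {w}) (hPw : P w = w)
    (hr : ∀ v ∈ T.L, ∃ N : ℕ, N ≠ 0 ∧ N • P v ∈ T.L) :
    ∃ E₁ E₂ : AV, finrank ℂ E₁.V = 1 ∧ finrank ℂ E₂.V = 1 ∧ IsProd T E₁ E₂ := by
  have hPP : ∀ v ∈ Submodule.span ℂ {w}, P v = v := by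
    intro v hv
    obtain ⟨z, rfl⟩ := Submodule.mem_span_singleton.1 hv
    rw [map_smul, hPw]
  have hran : LinearMap.range P = Submodule.span ℂ {w} := by
    apply le_antisymm
    · rintro _ ⟨v, rfl⟩
      exact hP v
    · intro v hv
      exact ⟨v, hPP v hv⟩
  have hk : ∀ v, v - P v ∈ LinearMap.ker P := by
    intro v
    rw [LinearMap.mem_ker, map_sub, hPP _ (hP v), sub_self]
  have hf1 : finrank ℂ (Submodule.span ℂ {w}) = 1 := finrank_span_singleton hw
  have hf2 : finrank ℂ (LinearMap.ker P) = 1 := by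
    have h3 := LinearMap.finrank_range_add_finrank_ker P
    rw [hran, hf1, h2] at h3
    omega
  have hc : IsCompl (Submodule.span ℂ {w}) (LinearMap.ker P) := by
    refine IsCompl.of_eq ?_ ?_
    · rw [eq_bot_iff]
      rintro v ⟨hv1, hv2⟩
      have h3 := hPP v hv1
      have h4 : P v = 0 := hv2
      rw [Submodule.mem_bot, ← h3, h4]
    · rw [eq_top_iff]
      rintro v -
      have h3 : v = P v + (v - P v) := by abel
      rw [h3]
      exact Submodule.add_mem_sup (hP v) (hk v)
  obtain ⟨A, eA, hA⟩ := ex_sub (Submodule.span ℂ {w}) (span_lat P _ hP hPP hr)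
  have hr2 : ∀ v ∈ T.L, ∃ N : ℕ, N ≠ 0 ∧ N • ((LinearMap.id : T.V →ₗ[ℂ] T.V) - P) v ∈ T.L := by
    intro v hv
    obtain ⟨N, hN, h⟩ := hr v hv
    refine ⟨N, hN, ?_⟩
    rw [LinearMap.sub_apply, LinearMap.id_apply, smul_sub]
    exact T.L.sub_mem (T.L.toAddSubgroup.nsmul_mem hv N) h
  obtain ⟨B, eB, hB⟩ := ex_sub (LinearMap.ker P)
    (span_lat ((LinearMap.id : T.V →ₗ[ℂ] T.V) - P) _ hk (by
      intro v hv
      have h4 : P v = 0 := hv
      rw [LinearMap.sub_apply, LinearMap.id_apply, h4, sub_zero]) hr2)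
  refine ⟨A, B, by rw [eA.finrank_eq, hf1], by rw [eB.finrank_eq, hf2],
    (Submodule.prodEquivOfIsCompl _ _ hc).symm.trans (LinearEquiv.prodCongr eA.symm eB.symm), ?_⟩
  intro v hv
  obtain ⟨N, hN, h⟩ := hr v hv
  have hdec : (Submodule.prodEquivOfIsCompl _ _ hc).symm v = (⟨P v, hP v⟩, ⟨v - P v, hk v⟩) := by
    rw [LinearEquiv.symm_apply_eq, Submodule.coe_prodEquivOfIsCompl']
    exact (add_sub_cancel _ _).symm
  refine ⟨N, hN, ?_, ?_⟩
  · rw [hA, map_nsmul]
    change ((N • eA (eA.symm ((Submodule.prodEquivOfIsCompl _ _ hc).symm v).1) :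
      Submodule.span ℂ {w}) : T.V) ∈ T.L
    rw [hdec, LinearEquiv.apply_symm_apply]
    exact h
  · rw [hB, map_nsmul]
    change ((N • eB (eB.symm ((Submodule.prodEquivOfIsCompl _ _ hc).symm v).2) :
      LinearMap.ker P) : T.V) ∈ T.L
    rw [hdec, LinearEquiv.apply_symm_apply]
    change N • (v - P v) ∈ T.L
    rw [smul_sub]
    exact T.L.sub_mem (T.L.toAddSubgroup.nsmul_mem hv N) h

end uS_aux

open uS_aux in
/-- **S_uS**: splitting. -/
theorem tuS : S_uS := by
  intro T h2 X hX hCx hsc a b hab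
  obtain ⟨E, hE1, hE2, hE3, hE4⟩ := T.pol
  obtain ⟨Xc, hXc⟩ := cx_lin X hCx
  -- the complex linear map `X - a`
  set Y : T.V →ₗ[ℂ] T.V := Xc - (a : ℂ) • (LinearMap.id : T.V →ₗ[ℂ] T.V) with hYdef
  have ca : ∀ (q : ℚ) (v : T.V), (q : ℂ) • v = (q : ℝ) • v := by
    intro q v
    rw [← Complex.coe_smul]
    norm_num
  have hY : ∀ v, Y v = X v - (a : ℝ) • v := by
    intro v
    rw [hYdef, LinearMap.sub_apply, LinearMap.smul_apply, LinearMap.id_apply, hXc, ca]
  have hYr : ∀ v ∈ T.L, ∃ N : ℕ, N ≠ 0 ∧ N • Y v ∈ T.L := by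
    intro v hv
    obtain ⟨N, hN, h⟩ := hX v hv
    refine ⟨N * a.den, mul_ne_zero hN a.den_nz, ?_⟩
    have h3 : (N * a.den) • Y v = a.den • (N • X v) - ((N : ℤ) * a.num) • v := by
      rw [hY, smul_sub, mul_comm N a.den, mul_smul]
      congr 1
      rw [← Nat.cast_smul_eq_nsmul ℝ, ← Int.cast_smul_eq_zsmul ℝ, smul_smul]
      congr 1
      push_cast
      have h4 : (a : ℝ) = a.num / a.den := by
        exact_mod_cast (Rat.num_div_den a).symm
      have h5 : (a.den : ℝ) ≠ 0 := Nat.cast_ne_zero.2 a.den_nz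
      rw [h4]
      field_simp
    rw [h3]
    exact T.L.sub_mem (T.L.toAddSubgroup.nsmul_mem h _) (T.L.smul_mem _ hv)
  have hYne : ∃ v, Y v ≠ 0 := by
    by_contra hcon
    push Not at hcon
    refine hsc ⟨(a : ℝ), LinearMap.ext fun v => ?_⟩
    have h3 := hcon v
    rw [hY, sub_eq_zero] at h3
    rw [h3]
    rfl
  have hker : ∃ v, v ≠ 0 ∧ Y v = 0 := by
    by_contra hcon
    push Not at hcon
    refine hsc ⟨(b : ℝ), LinearMap.ext fun v => ?_⟩
    have h3 : X v - (b : ℝ) • v = 0 := by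
      by_contra h4
      refine hcon _ h4 ?_
      rw [hY]
      exact congrArg (fun f : Module.End ℝ T.V => f v) hab
    rw [sub_eq_zero] at h3
    rw [h3]
    rfl
  have hrank : finrank ℂ (LinearMap.range Y) = 1 := by
    obtain ⟨v, hv⟩ := hYne
    obtain ⟨u, hu, hYu⟩ := hker
    have h3 := LinearMap.finrank_range_add_finrank_ker Y
    rw [h2] at h3
    have h4 : 0 < finrank ℂ (LinearMap.range Y) := by
      rw [finrank_pos_iff_exists_ne_zero]
      exact ⟨⟨Y v, v, rfl⟩, fun h => hv (congrArg Subtype.val h)⟩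
    have h5 : 0 < finrank ℂ (LinearMap.ker Y) := by
      rw [finrank_pos_iff_exists_ne_zero]
      exact ⟨⟨u, hYu⟩, fun h => hu (congrArg Subtype.val h)⟩
    omega
  -- a lattice vector in the range
  obtain ⟨w, hwL, hw0, v0, hv0⟩ : ∃ w ∈ T.L, w ≠ 0 ∧ ∃ v, Y v = w := by
    obtain ⟨v, hv⟩ := hYne
    by_contra hcon
    push Not at hcon
    have hz : ∀ y ∈ T.L, Y y = 0 := by
      intro y hy
      obtain ⟨N, hN, h⟩ := hYr y hy
      by_contra h3
      refine hcon (N • Y y) h ?_ (N • y) (map_nsmul Y N y)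
      rw [← Nat.cast_smul_eq_nsmul ℝ N]
      exact smul_ne_zero (Nat.cast_ne_zero.2 hN) h3
    apply hv
    have hvs : v ∈ Submodule.span ℝ (T.L : Set T.V) := by
      rw [T.latt.span_top]
      exact Submodule.mem_top
    clear hv
    induction hvs using Submodule.span_induction with
    | mem y hy => exact hz y hy
    | zero => exact map_zero Y
    | add y z _ _ hy hz' => rw [map_add, hy, hz', add_zero]
    | smul c y _ hy => rw [← Complex.coe_smul, map_smul, hy, smul_zero]
  -- a second one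
  have hEw := hE4 w hw0
  obtain ⟨u, huL, v1, hv1, hg⟩ : ∃ u ∈ T.L, ∃ v, Y v = u ∧ E u w ≠ 0 := by
    let f : T.V →ₗ[ℝ] ℝ := (E.flip w) ∘ₗ (Y.restrictScalars ℝ)
    have hf : ∀ v, f v = E (Y v) w := fun v => rfl
    have h3 : f (Complex.I • v0) ≠ 0 := by
      rw [hf, map_smul, hv0]
      exact hEw.ne'
    obtain ⟨y, hy, h4⟩ := ex_lat f _ h3
    obtain ⟨N, hN, h⟩ := hYr y hy
    refine ⟨N • Y y, h, N • y, map_nsmul Y N y, ?_⟩
    rw [map_nsmul, LinearMap.smul_apply, ← hf]
    rw [← Nat.cast_smul_eq_nsmul ℝ N]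
    exact smul_ne_zero (Nat.cast_ne_zero.2 hN) h4
  obtain ⟨z, hz⟩ : ∃ z : ℂ, z • w = u := by
    have hne : (⟨w, v0, hv0⟩ : LinearMap.range Y) ≠ 0 := fun h => hw0 (congrArg Subtype.val h)
    obtain ⟨z, hz⟩ := exists_smul_eq_of_finrank_eq_one hrank hne ⟨u, v1, hv1⟩
    exact ⟨z, congrArg Subtype.val hz⟩
  -- the orthogonal projection
  have hww : E w w = 0 := by
    have := hE2 w w
    linarith
  have hI : ∀ v, E (Complex.I • v) w = -E v (Complex.I • w) := by
    intro v
    have h3 := hE3 (Complex.I • v) w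
    rw [smul_smul, Complex.I_mul_I, neg_one_smul, map_neg, LinearMap.neg_apply] at h3
    linarith
  let H : T.V →ₗ[ℂ] ℂ :=
    { toFun := fun v => (E (Complex.I • v) w : ℂ) + (E v w : ℂ) * Complex.I
      map_add' := by
        intro v v'
        rw [smul_add, map_add, map_add, LinearMap.add_apply, LinearMap.add_apply]
        push_cast
        ring
      map_smul' := by
        intro c v
        have h3 : E (c • v) w = c.re * E v w + c.im * E (Complex.I • v) w := by
          rw [cs c v, map_add, map_smul, map_smul, LinearMap.add_apply, LinearMap.smul_apply,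
            LinearMap.smul_apply, smul_eq_mul, smul_eq_mul]
        have h4 : E (Complex.I • c • v) w = c.re * E (Complex.I • v) w - c.im * E v w := by
          rw [cs' c v, map_sub, map_smul E c.re, map_smul E c.im, LinearMap.sub_apply,
            LinearMap.smul_apply, LinearMap.smul_apply, smul_eq_mul, smul_eq_mul]
        rw [h3, h4, RingHom.id_apply, smul_eq_mul]
        push_cast
        apply Complex.ext
        · simp [Complex.add_re, Complex.mul_re]
        · simp [Complex.add_im, Complex.mul_im] }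
  have hH : ∀ v, H v = (E (Complex.I • v) w : ℂ) + (E v w : ℂ) * Complex.I := fun v => rfl
  have hHw : H w = (E (Complex.I • w) w : ℂ) := by
    rw [hH, hww]
    simp
  have hHw0 : H w ≠ 0 := by
    rw [hHw]
    exact_mod_cast hEw.ne'
  let P : T.V →ₗ[ℂ] T.V := ((H w)⁻¹ • H).smulRight w
  have hPd : ∀ v, P v = ((H w)⁻¹ * H v) • w := fun v => rfl
  have hPw : P w = w := by rw [hPd, inv_mul_cancel₀ hHw0, one_smul]
  have hHP : ∀ v, H (v - P v) = 0 := by
    intro v
    rw [map_sub, hPd, map_smul, smul_eq_mul]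
    field_simp
    ring
  have hE0 : ∀ v, E (v - P v) w = 0 ∧ E (Complex.I • (v - P v)) w = 0 := by
    intro v
    have h3 := hHP v
    rw [hH] at h3
    have h4 := congrArg Complex.re h3
    have h5 := congrArg Complex.im h3
    simp only [Complex.add_re, Complex.mul_re, Complex.ofReal_re, Complex.ofReal_im, Complex.I_re,
      Complex.I_im, Complex.add_im, Complex.mul_im, Complex.zero_re, Complex.zero_im] at h4 h5
    constructor
    · linarith
    · linarith
  have hEu : ∀ v, E (v - P v) u = 0 := by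
    intro v
    obtain ⟨h3, h4⟩ := hE0 v
    rw [← hz, cs z w, map_add, map_smul, map_smul, h3, smul_zero, zero_add]
    rw [hI] at h4
    rw [neg_eq_zero.1 h4, smul_zero]
  -- coordinates
  have huu : E u u = 0 := by
    have := hE2 u u
    linarith
  have him : z.im ≠ 0 := by
    intro h3
    apply hg
    rw [← hz, cs z w, h3, zero_smul, add_zero, map_smul, LinearMap.smul_apply, hww, smul_zero]
  have hco : ∀ c : ℂ, ∃ x y : ℝ, c • w = x • w + y • u := by
    intro c
    refine ⟨c.re - c.im / z.im * z.re, c.im / z.im, ?_⟩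
    rw [← hz, cs z w, cs c w, smul_add, smul_smul, smul_smul, div_mul_cancel₀ _ him, ← add_assoc,
      ← add_smul, sub_add_cancel]
  refine split h2 P w hw0 (fun v => Submodule.mem_span_singleton.2 ⟨_, (hPd v).symm⟩) hPw ?_
  intro v hv
  obtain ⟨x, y, hxy⟩ := hco ((H w)⁻¹ * H v)
  rw [← hPd] at hxy
  obtain ⟨g, hgz⟩ := hE1 u huL w hwL
  obtain ⟨n1, hn1⟩ := hE1 v hv w hwL
  obtain ⟨n2, hn2⟩ := hE1 v hv u huL
  have h3 : y * E u w = E v w := by
    have h4 := (hE0 v).1
    rw [map_sub, LinearMap.sub_apply, hxy, map_add, map_smul, map_smul, LinearMap.add_apply,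
      LinearMap.smul_apply, LinearMap.smul_apply, hww, smul_zero, zero_add, smul_eq_mul] at h4
    linarith
  have h5 : -(x * E u w) = E v u := by
    have h4 := hEu v
    rw [map_sub, LinearMap.sub_apply, hxy, map_add, map_smul, map_smul, LinearMap.add_apply,
      LinearMap.smul_apply, LinearMap.smul_apply, huu, smul_zero, add_zero, smul_eq_mul,
      hE2 w u] at h4
    linarith
  have hg0 : g ≠ 0 := by
    intro h6
    apply hg
    rw [hgz, h6, Int.cast_zero]
  have h6 : g • P v = (-n2) • w + n1 • u := by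
    rw [hxy, ← Int.cast_smul_eq_zsmul ℝ g, ← Int.cast_smul_eq_zsmul ℝ (-n2),
      ← Int.cast_smul_eq_zsmul ℝ n1, smul_add, smul_smul, smul_smul]
    congr 2
    · push_cast
      rw [← hgz, ← hn2, ← h5]
      ring
    · rw [← hgz, ← hn1, ← h3]
      ring
  have h7 : g • P v ∈ T.L := by
    rw [h6]
    exact T.L.add_mem (T.L.smul_mem _ hwL) (T.L.smul_mem _ huL)
  refine ⟨g.natAbs, Int.natAbs_ne_zero.2 hg0, ?_⟩
  rw [← natCast_zsmul]
  rcases Int.natAbs_eq g with h8 | h8
  · rw [← h8]
    exact h7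
  · have h9 : ((g.natAbs : ℕ) : ℤ) = -g := by omega
    rw [h9, neg_smul]
    exact T.L.neg_mem h7

end SEU
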