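import Pool.Agent.Lib.SE.U.Spec

/-!
# PROJECT SE-U, module uP: dimension 4, the pencil argument
-/

set_option autoImplicit false

open Module

noncomputable section

namespace SEU

open HC HC.E HC.SE SEB SES

namespace uP_aux

variable {V : Type} [AddCommGroup V] [Module ℂ V]

/-- the eigenspaces of `J` -/
def Wp (J : Module.End ℂ V) : Submodule ℂ V := LinearMap.ker (J - Complex.I • 1)
def Wm (J : Module.End ℂ V) : Submodule ℂ V := LinearMap.ker (J + Complex.I • 1)

theorem mem_Wp {J : Module.End ℂ V} {v : V} : v ∈ Wp J ↔ J v = Complex.I • v := by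
  unfold Wp
  rw [LinearMap.mem_ker, LinearMap.sub_apply, LinearMap.smul_apply, Module.End.one_apply,
    sub_eq_zero]

theorem mem_Wm {J : Module.End ℂ V} {v : V} : v ∈ Wm J ↔ J v = -(Complex.I • v) := by
  unfold Wm
  rw [LinearMap.mem_ker, LinearMap.add_apply, LinearMap.smul_apply, Module.End.one_apply,
    eq_neg_iff_add_eq_zero]

theorem JJ {J : Module.End ℂ V} (hJ : J * J = -1) (v : V) : J (J v) = -v := by
  have := LinearMap.congr_fun hJ v
  rwa [Module.End.mul_apply, LinearMap.neg_apply, Module.End.one_apply] at this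

theorem two_I : (2 * Complex.I : ℂ) ≠ 0 := mul_ne_zero two_ne_zero Complex.I_ne_zero

theorem eq_zero_of {v : V} (h : Complex.I • v = -(Complex.I • v)) : v = 0 := by
  have h1 : (2 * Complex.I) • v = 0 := by
    have : (2 * Complex.I) • v = Complex.I • v - -(Complex.I • v) := by module
    rw [this, ← h, sub_self]
  exact (smul_eq_zero.mp h1).resolve_left two_I

theorem dec {J : Module.End ℂ V} (hJ : J * J = -1) (v : V) :
    ∃ a ∈ Wp J, ∃ b ∈ Wm J, v = a + b := by
  refine ⟨(1 / 2 : ℂ) • (v - Complex.I • J v), ?_, (1 / 2 : ℂ) • (v + Complex.I • J v), ?_, ?_⟩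
  · rw [mem_Wp, map_smul, map_sub, map_smul, JJ hJ]
    linear_combination (norm := module) (1 / 2 : ℂ) • (Complex.I_mul_I • J v)
  · rw [mem_Wm, map_smul, map_add, map_smul, JJ hJ]
    linear_combination (norm := module) (1 / 2 : ℂ) • (Complex.I_mul_I • J v)
  · module

theorem isCompl {J : Module.End ℂ V} (hJ : J * J = -1) : IsCompl (Wp J) (Wm J) := by
  constructor
  · rw [Submodule.disjoint_def]
    intro x h1 h2
    rw [mem_Wp] at h1
    rw [mem_Wm] at h2
    exact eq_zero_of (h1.symm.trans h2)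
  · rw [codisjoint_iff, Submodule.eq_top_iff']
    intro x
    obtain ⟨a, ha, b, hb, rfl⟩ := dec hJ x
    exact Submodule.add_mem_sup ha hb

theorem om_pp {J : Module.End ℂ V} {ω : V →ₗ[ℂ] V →ₗ[ℂ] ℂ} (hs : SEH.Skw ω J) {x y : V}
    (hx : x ∈ Wp J) (hy : y ∈ Wp J) : ω x y = 0 := by
  have h := hs x y
  rw [mem_Wp] at hx hy
  rw [hx, hy, map_smul, LinearMap.smul_apply, map_smul, smul_eq_mul] at h
  have h1 : (2 * Complex.I) * ω x y = 0 := by linear_combination h
  exact (mul_eq_zero.mp h1).resolve_left two_I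

theorem om_mm {J : Module.End ℂ V} {ω : V →ₗ[ℂ] V →ₗ[ℂ] ℂ} (hs : SEH.Skw ω J) {x y : V}
    (hx : x ∈ Wm J) (hy : y ∈ Wm J) : ω x y = 0 := by
  have h := hs x y
  rw [mem_Wm] at hx hy
  rw [hx, hy, map_neg, map_neg, map_smul, LinearMap.neg_apply, LinearMap.smul_apply, map_smul,
    smul_eq_mul] at h
  have h1 : (2 * Complex.I) * ω x y = 0 := by linear_combination -h
  exact (mul_eq_zero.mp h1).resolve_left two_I

theorem om_swap {ω : V →ₗ[ℂ] V →ₗ[ℂ] ℂ} (hω : SEH.Smp ω) (x y : V) : ω x y = -ω y x := by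
  have h := hω.1 (x + y)
  rw [map_add, map_add, LinearMap.add_apply, LinearMap.add_apply, hω.1, hω.1] at h
  linear_combination h

theorem fr_le [FiniteDimensional ℂ V] {J : Module.End ℂ V} {ω : V →ₗ[ℂ] V →ₗ[ℂ] ℂ}
    (hJ : J * J = -1) (hω : SEH.Smp ω) (hs : SEH.Skw ω J) :
    finrank ℂ (Wp J) = finrank ℂ (Wm J) := by
  apply le_antisymm
  · have h := LinearMap.finrank_le_finrank_of_injective
      (f := LinearMap.domRestrict₁₂ ω (Wp J) (Wm J)) (by
        rw [injective_iff_map_eq_zero]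
        intro x hx
        apply Subtype.ext
        apply hω.2
        intro w
        obtain ⟨a, ha, b, hb, rfl⟩ := dec hJ w
        rw [map_add, om_pp hs x.2 ha, zero_add]
        exact LinearMap.congr_fun hx ⟨b, hb⟩)
    rwa [Subspace.dual_finrank_eq] at h
  · have h := LinearMap.finrank_le_finrank_of_injective
      (f := LinearMap.domRestrict₁₂ ω (Wm J) (Wp J)) (by
        rw [injective_iff_map_eq_zero]
        intro x hx
        apply Subtype.ext
        apply hω.2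
        intro w
        obtain ⟨a, ha, b, hb, rfl⟩ := dec hJ w
        rw [map_add, om_mm hs x.2 hb, add_zero]
        exact LinearMap.congr_fun hx ⟨a, ha⟩)
    rwa [Subspace.dual_finrank_eq] at h

theorem ext2 {W : Submodule ℂ V} (h : finrank ℂ W = 2) {w : V} (hw : w ∈ W) (h0 : w ≠ 0) :
    ∃ u ∈ W, (∀ v ∈ W, ∃ a b : ℂ, v = a • w + b • u) ∧
      ∀ a b : ℂ, a • w + b • u = 0 → a = 0 ∧ b = 0 := by
  have : FiniteDimensional ℂ W := Module.finite_of_finrank_pos (by omega)
  have h1 : ∃ u : W, u ∉ Submodule.span ℂ {(⟨w, hw⟩ : W)} := by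
    by_contra hc
    push Not at hc
    have h2 : Submodule.span ℂ {(⟨w, hw⟩ : W)} = ⊤ := by
      rw [Submodule.eq_top_iff']
      exact hc
    have h3 := finrank_span_singleton (K := ℂ) (v := (⟨w, hw⟩ : W)) (by
      intro hz
      exact h0 (congrArg Subtype.val hz))
    rw [h2, finrank_top, h] at h3
    omega
  obtain ⟨u, hu⟩ := h1
  have hli : LinearIndependent ℂ ![(⟨w, hw⟩ : W), u] := by
    rw [LinearIndependent.pair_iff]
    intro s t hst
    have ht : t = 0 := by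
      by_contra ht
      apply hu
      rw [Submodule.mem_span_singleton]
      refine ⟨-(t⁻¹ * s), ?_⟩
      have h4 : t⁻¹ • (s • (⟨w, hw⟩ : W) + t • u) = 0 := by rw [hst, smul_zero]
      rw [smul_add, smul_smul, smul_smul, inv_mul_cancel₀ ht, one_smul] at h4
      rw [neg_smul]
      exact (eq_neg_of_add_eq_zero_right h4).symm
    rw [ht, zero_smul, add_zero, smul_eq_zero] at hst
    refine ⟨hst.resolve_right ?_, ht⟩
    intro hz
    exact h0 (congrArg Subtype.val hz)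
  have hsp := hli.span_eq_top_of_card_eq_finrank (by rw [Fintype.card_fin, h])
  refine ⟨u, u.2, ?_, ?_⟩
  · intro v hv
    have h5 : (⟨v, hv⟩ : W) ∈ Submodule.span ℂ (Set.range ![(⟨w, hw⟩ : W), u]) := by
      rw [hsp]
      trivial
    rw [Matrix.range_cons, Matrix.range_cons, Matrix.range_empty, Set.union_empty,
      Set.singleton_union, Submodule.mem_span_pair] at h5
    obtain ⟨a, b, hab⟩ := h5
    exact ⟨a, b, (congrArg Subtype.val hab).symm⟩
  · intro a b hab
    rw [LinearIndependent.pair_iff] at hli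
    exact hli a b (Subtype.ext hab)

theorem rk1 {ω : V →ₗ[ℂ] V →ₗ[ℂ] ℂ} (hω : SEH.Smp ω) (C : Module.End ℂ V) {x : V} (hx : x ≠ 0)
    (h : ∀ v, ∃ c : ℂ, C v = c • x) : ∃ φ : Module.Dual ℂ V, C = φ.smulRight x := by
  obtain ⟨z, hz⟩ : ∃ z, ω x z ≠ 0 := by
    by_contra hc
    push Not at hc
    exact hx (hω.2 x hc)
  refine ⟨(ω x z)⁻¹ • ((ω.flip z).comp C), ?_⟩
  apply LinearMap.ext
  intro v
  obtain ⟨c, hc⟩ := h v
  rw [LinearMap.smulRight_apply, LinearMap.smul_apply, LinearMap.comp_apply, LinearMap.flip_apply,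
    hc, map_smul, LinearMap.smul_apply, smul_eq_mul, smul_eq_mul]
  congr 1
  field_simp

/-- the case of a nonzero element of `g₊` with a kernel on `W⁻` -/
theorem caseB (hR : SEH.S_hR) [FiniteDimensional ℂ V]
    (g : Submodule ℂ (Module.End ℂ V)) (ω : V →ₗ[ℂ] V →ₗ[ℂ] ℂ) (J : Module.End ℂ V)
    (σ : V →ₛₗ[starRingEnd ℂ] V) (hω : SEH.Smp ω) (hsk : ∀ X ∈ g, SEH.Skw ω X)
    (hbr : ∀ X ∈ g, ∀ Y ∈ g, X * Y - Y * X ∈ g) (hJ : J * J = -1)
    (hσ : ∀ v, σ (σ v) = v) (hcj : ∀ X ∈ g, ∃ X' ∈ g, ∀ v, X' (σ v) = σ (X v))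
    (hpos : ∀ x, x ≠ 0 → J x = Complex.I • x → ω x (σ x) ≠ 0)
    (hirr : ∀ U : Submodule ℂ V, (∀ X ∈ g, ∀ u ∈ U, X u ∈ U) → U = ⊥ ∨ U = ⊤)
    (hfr : finrank ℂ (Wm J) = 2)
    (C : Module.End ℂ V) (hC : C ∈ g) (hC0 : C ≠ 0) (h1 : ∀ v, C v ∈ Wp J)
    (h2 : ∀ v ∈ Wp J, C v = 0) (w : V) (hw : w ∈ Wm J) (hw0 : w ≠ 0) (hCw : C w = 0) :
    ∀ Y : Module.End ℂ V, SEH.Skw ω Y →
      Y ∈ Submodule.span ℂ {Y | ∃ A ∈ g, ∃ B ∈ g, Y = A * B - B * A} := by
  obtain ⟨u, huW, hu, -⟩ := ext2 hfr hw hw0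
  have hx0 : C u ≠ 0 := by
    intro hz
    apply hC0
    apply LinearMap.ext
    intro v
    obtain ⟨p, hp, m, hm, rfl⟩ := dec hJ v
    obtain ⟨a, b, rfl⟩ := hu m hm
    rw [map_add, h2 p hp, map_add, map_smul, map_smul, hCw, hz, smul_zero, smul_zero]
    simp
  have hr : ∀ v, ∃ c : ℂ, C v = c • C u := by
    intro v
    obtain ⟨p, hp, m, hm, rfl⟩ := dec hJ v
    obtain ⟨a, b, rfl⟩ := hu m hm
    refine ⟨b, ?_⟩
    rw [map_add, h2 p hp, map_add, map_smul, map_smul, hCw, smul_zero, zero_add, zero_add]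
  obtain ⟨φ, hφ⟩ := rk1 hω C hx0 hr
  have hC1 : ∀ v, C v = φ v • C u := by
    intro v
    have := LinearMap.congr_fun hφ v
    rwa [LinearMap.smulRight_apply] at this
  have hφu : φ u ≠ 0 := by
    intro hz
    apply hx0
    rw [hC1 u, hz, zero_smul]
  have hωx : ω (C u) (σ (C u)) ≠ 0 := hpos (C u) hx0 (mem_Wp.mp (h1 u))
  have hφy : φ (σ (C u)) ≠ 0 := by
    intro hz
    have h := hsk C hC (σ (C u)) u
    rw [hC1 (σ (C u)), hz, zero_smul, map_zero, LinearMap.zero_apply, zero_add,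
      om_swap hω, neg_eq_zero] at h
    exact hωx h
  have hy0 : σ (C u) ≠ 0 := by
    intro hz
    rw [hz, map_zero] at hφy
    exact hφy rfl
  obtain ⟨C', hC', hCC⟩ := hcj C hC
  have hC2 : ∀ v, C' v = (starRingEnd ℂ) (φ (σ v)) • σ (C u) := by
    intro v
    have := hCC (σ v)
    rw [hσ] at this
    rw [this, hC1 (σ v), map_smulₛₗ]
  obtain ⟨ψ, hψ⟩ := rk1 hω C' hy0 (fun v => ⟨_, hC2 v⟩)
  have hψx : ψ (C u) ≠ 0 := by
    intro hz
    have h3 := LinearMap.congr_fun hψ (C u)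
    rw [LinearMap.smulRight_apply, hz, zero_smul, hC2 (C u), smul_eq_zero] at h3
    rcases h3 with h3 | h3
    · exact hφy ((map_eq_zero _).mp h3)
    · exact hy0 h3
  exact hR V g ω (C u) (σ (C u)) φ ψ hω hsk hbr hφy hψx (hφ ▸ hC) (hψ ▸ hC') hirr

theorem isot {ω : V →ₗ[ℂ] V →ₗ[ℂ] ℂ} (hω : SEH.Smp ω) {Q : Module.End ℂ V} (hQ : SEH.Skw ω Q)
    {W : Submodule ℂ V} (h : finrank ℂ W = 2) : ∃ w ∈ W, w ≠ 0 ∧ ω (Q w) w = 0 := by
  obtain ⟨⟨a, haW⟩, ha⟩ : ∃ a : W, a ≠ 0 := by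
    have : Nontrivial W := Module.nontrivial_of_finrank_pos (R := ℂ) (by omega)
    exact exists_ne 0
  have ha0 : a ≠ 0 := fun h0 => ha (Subtype.ext h0)
  obtain ⟨b, hbW, -, hli⟩ := ext2 h haW ha0
  have hsym : ω (Q b) a = ω (Q a) b := by
    have h1 := hQ b a
    rw [om_swap hω b (Q a)] at h1
    linear_combination h1
  by_cases hbb : ω (Q b) b = 0
  · refine ⟨b, hbW, ?_, hbb⟩
    intro hb
    have := (hli 0 1 (by rw [hb]; simp)).2
    exact one_ne_zero this
  · obtain ⟨s, hs⟩ := IsAlgClosed.exists_pow_nat_eq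
      (ω (Q a) b ^ 2 - ω (Q a) a * ω (Q b) b) (n := 2) (by norm_num)
    set t : ℂ := (-(ω (Q a) b) + s) / ω (Q b) b with ht
    have ht1 : t * ω (Q b) b = -(ω (Q a) b) + s := by
      rw [ht, div_mul_cancel₀ _ hbb]
    refine ⟨a + t • b, W.add_mem haW (W.smul_mem _ hbW), ?_, ?_⟩
    · intro h0
      have := (hli 1 t (by rw [one_smul]; exact h0)).1
      exact one_ne_zero this
    · have h2 : ω (Q (a + t • b)) (a + t • b) =
          ω (Q a) a + 2 * t * ω (Q a) b + t ^ 2 * ω (Q b) b := by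
        simp only [map_add, map_smul, LinearMap.add_apply, LinearMap.smul_apply, hsym, smul_eq_mul]
        ring
      rw [h2]
      have h3 : ω (Q b) b * (ω (Q a) a + 2 * t * ω (Q a) b + t ^ 2 * ω (Q b) b) = 0 := by
        linear_combination (2 * ω (Q a) b + t * ω (Q b) b + (-(ω (Q a) b) + s)) * ht1 + hs
      exact (mul_eq_zero.mp h3).resolve_left hbb

theorem comp (g : Submodule ℂ (Module.End ℂ V)) (J : Module.End ℂ V)
    (hbr : ∀ X ∈ g, ∀ Y ∈ g, X * Y - Y * X ∈ g) (hJg : J ∈ g) (hJ : J * J = -1)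
    (X : Module.End ℂ V) (hX : X ∈ g) :
    ∃ X0 ∈ g, ∃ XP ∈ g, ∃ XM ∈ g, X = X0 + XP + XM ∧ (∀ v, J (X0 v) = X0 (J v)) ∧
      (∀ v, XP v ∈ Wp J) ∧ (∀ v ∈ Wp J, XP v = 0) ∧ (∀ v, XM v ∈ Wm J) ∧
      (∀ v ∈ Wm J, XM v = 0) := by
  have e1 := hbr J hJg X hX
  have e2 := hbr J hJg _ e1
  have e3 : J * X * J ∈ g := by
    have h : J * X * J = -X - (1 / 2 : ℂ) • (J * (J * X - X * J) - (J * X - X * J) * J) := by
      have h4 : J * (J * X - X * J) - (J * X - X * J) * J =
          (J * J) * X - (2 : ℂ) • (J * X * J) + X * (J * J) := by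
        rw [two_smul]
        noncomm_ring
      rw [h4, hJ]
      have h5 : (-1 : Module.End ℂ V) * X = -X := by noncomm_ring
      have h6 : X * (-1 : Module.End ℂ V) = -X := by noncomm_ring
      rw [h5, h6]
      module
    rw [h]
    exact g.sub_mem (g.neg_mem hX) (g.smul_mem _ e2)
  have hJJ := JJ hJ
  refine ⟨(1 / 2 : ℂ) • (X - J * X * J), g.smul_mem _ (g.sub_mem hX e3),
    (1 / 4 : ℂ) • (X + J * X * J - Complex.I • (J * X - X * J)),
    g.smul_mem _ (g.sub_mem (g.add_mem hX e3) (g.smul_mem _ e1)),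
    (1 / 4 : ℂ) • (X + J * X * J + Complex.I • (J * X - X * J)),
    g.smul_mem _ (g.add_mem (g.add_mem hX e3) (g.smul_mem _ e1)), ?_, ?_, ?_, ?_, ?_, ?_⟩
  · module
  · intro v
    simp only [LinearMap.smul_apply, LinearMap.sub_apply, Module.End.mul_apply, map_smul, map_sub,
      hJJ, map_neg]
    module
  · intro v
    rw [mem_Wp]
    simp only [LinearMap.smul_apply, LinearMap.sub_apply, LinearMap.add_apply,
      Module.End.mul_apply, map_smul, map_sub, map_add, hJJ]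
    linear_combination (norm := module)
      (1 / 4 : ℂ) • (Complex.I_mul_I • J (X v)) - (1 / 4 : ℂ) • (Complex.I_mul_I • X (J v))
  · intro v hv
    rw [mem_Wp] at hv
    simp only [LinearMap.smul_apply, LinearMap.sub_apply, LinearMap.add_apply,
      Module.End.mul_apply, hv, map_smul]
    linear_combination (norm := module) (1 / 4 : ℂ) • (Complex.I_mul_I • X v)
  · intro v
    rw [mem_Wm]
    simp only [LinearMap.smul_apply, LinearMap.sub_apply, LinearMap.add_apply,
      Module.End.mul_apply, map_smul, map_sub, map_add, hJJ]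
    linear_combination (norm := module)
      (1 / 4 : ℂ) • (Complex.I_mul_I • J (X v)) - (1 / 4 : ℂ) • (Complex.I_mul_I • X (J v))
  · intro v hv
    rw [mem_Wm] at hv
    simp only [LinearMap.smul_apply, LinearMap.sub_apply, LinearMap.add_apply,
      Module.End.mul_apply, hv, map_smul, map_neg]
    linear_combination (norm := module) (1 / 4 : ℂ) • (Complex.I_mul_I • X v)

end uP_aux

open uP_aux

theorem tuP (hR : SEH.S_hR) : S_uP := by
  intro V _ _ _ g ω J σ hV hω hsk hbr hJg hJ hσ hσJ hcj hpos hirr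
  have hsJ := hsk J hJg
  have hfr : finrank ℂ (Wm J) = 2 := by
    have h1 := Submodule.finrank_add_eq_of_isCompl (isCompl hJ)
    rw [hV, fr_le hJ hω hsJ] at h1
    omega
  have hfrp : finrank ℂ (Wp J) = 2 := by rw [fr_le hJ hω hsJ, hfr]
  -- (a) a nonzero element of `g₊`
  obtain ⟨Q, hQg, hQ1, hQ2, hQ0⟩ : ∃ Q ∈ g, (∀ v, Q v ∈ Wp J) ∧ (∀ v ∈ Wp J, Q v = 0) ∧
      Q ≠ 0 := by
    by_contra hc
    push Not at hc
    have hst : ∀ X ∈ g, ∀ u ∈ Wm J, X u ∈ Wm J := by
      intro X hX u hu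
      obtain ⟨X0, hX0, XP, hXP, XM, hXM, hsum, h0, hp1, hp2, hm1, hm2⟩ :=
        comp g J hbr hJg hJ X hX
      have hP0 := hc XP hXP hp1 hp2
      rw [hsum, hP0, LinearMap.add_apply, LinearMap.add_apply, hm2 u hu, LinearMap.zero_apply,
        add_zero, add_zero]
      rw [mem_Wm] at hu ⊢
      rw [h0, hu, map_neg, map_smul]
    rcases hirr (Wm J) hst with h | h
    · rw [h, finrank_bot] at hfr
      omega
    · rw [h, finrank_top, hV] at hfr
      omega
  -- (b)
  by_cases hb : ∃ C ∈ g, (∀ v, C v ∈ Wp J) ∧ (∀ v ∈ Wp J, C v = 0) ∧ C ≠ 0 ∧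
      ∃ w ∈ Wm J, w ≠ 0 ∧ C w = 0
  · obtain ⟨C, hC, hC1, hC2, hC0, w, hw, hw0, hCw⟩ := hb
    exact caseB hR g ω J σ hω hsk hbr hJ hσ hcj hpos hirr hfr C hC hC0 hC1 hC2 w hw hw0 hCw
  exfalso
  push Not at hb
  -- (c) `g₊ = ℂ Q`
  have hone : ∀ C ∈ g, (∀ v, C v ∈ Wp J) → (∀ v ∈ Wp J, C v = 0) → ∃ t : ℂ, C = t • Q := by
    intro C hC hC1 hC2
    let q : Wm J →ₗ[ℂ] Wp J := LinearMap.restrict Q (fun v _ => hQ1 v)
    let c : Wm J →ₗ[ℂ] Wp J := LinearMap.restrict C (fun v _ => hC1 v)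
    have hq : Function.Injective q := by
      rw [injective_iff_map_eq_zero]
      intro x hx
      by_contra hx0
      exact hb Q hQg hQ1 hQ2 hQ0 x x.2 (fun h => hx0 (Subtype.ext h)) (congrArg Subtype.val hx)
    let e := LinearMap.linearEquivOfInjective q hq (by rw [hfr, hfrp])
    let T : Module.End ℂ (Wm J) := e.symm.toLinearMap ∘ₗ c
    have : Nontrivial (Wm J) := Module.nontrivial_of_finrank_pos (R := ℂ) (by omega)
    obtain ⟨t, ht⟩ := Module.End.exists_eigenvalue T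
    obtain ⟨v, hv⟩ := ht.exists_hasEigenvector
    have h1 : T v = t • v := hv.apply_eq_smul
    have h2 : c v = t • q v := by
      have h3 : e (T v) = c v := by
        show e (e.symm (c v)) = c v
        rw [e.apply_symm_apply]
      rw [← h3, h1, map_smul]
      rfl
    have h4 : C v = t • Q v := congrArg Subtype.val h2
    refine ⟨t, ?_⟩
    by_contra hne
    refine hb (C - t • Q) (g.sub_mem hC (g.smul_mem _ hQg)) ?_ ?_ (sub_ne_zero.mpr hne) v v.2
      (fun h => hv.2 (Subtype.ext h)) ?_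
    · intro u
      rw [LinearMap.sub_apply, LinearMap.smul_apply]
      exact (Wp J).sub_mem (hC1 u) ((Wp J).smul_mem _ (hQ1 u))
    · intro u hu
      rw [LinearMap.sub_apply, LinearMap.smul_apply, hC2 u hu, hQ2 u hu, smul_zero, sub_zero]
    · rw [LinearMap.sub_apply, LinearMap.smul_apply, h4, sub_self]
  -- (d)
  obtain ⟨w, hw, hw0, hww⟩ := isot hω (hsk Q hQg) hfr
  obtain ⟨u, hu, hspan, hli⟩ := ext2 hfr hw hw0
  have hQw : Q w ≠ 0 := fun h => hb Q hQg hQ1 hQ2 hQ0 w hw hw0 h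
  have hωu : ω (Q w) u ≠ 0 := by
    intro h
    apply hQw
    apply hω.2
    intro v
    obtain ⟨p, hp, m, hm, rfl⟩ := dec hJ v
    obtain ⟨a, b, rfl⟩ := hspan m hm
    rw [map_add, om_pp hsJ (hQ1 w) hp, map_add, map_smul, map_smul, hww, h, smul_zero, smul_zero]
    simp
  have hzero : ∀ X0 ∈ g, (∀ v, J (X0 v) = X0 (J v)) →
      (∃ a : ℂ, X0 w = a • w) ∧ ∃ χ : ℂ, ∀ v, X0 (Q v) = Q (X0 v) + χ • Q v := by
    intro X0 hX0 hcomm
    have hp : ∀ v ∈ Wp J, X0 v ∈ Wp J := by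
      intro v hv
      rw [mem_Wp] at hv ⊢
      rw [hcomm, hv, map_smul]
    have hm : ∀ v ∈ Wm J, X0 v ∈ Wm J := by
      intro v hv
      rw [mem_Wm] at hv ⊢
      rw [hcomm, hv, map_neg, map_smul]
    obtain ⟨χ, hχ⟩ := hone (X0 * Q - Q * X0) (hbr X0 hX0 Q hQg) (by
      intro v
      rw [LinearMap.sub_apply, Module.End.mul_apply, Module.End.mul_apply]
      exact (Wp J).sub_mem (hp _ (hQ1 v)) (hQ1 _)) (by
      intro v hv
      rw [LinearMap.sub_apply, Module.End.mul_apply, Module.End.mul_apply, hQ2 v hv, map_zero,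
        hQ2 _ (hp v hv), sub_zero])
    have hχ' : ∀ v, X0 (Q v) = Q (X0 v) + χ • Q v := by
      intro v
      have := LinearMap.congr_fun hχ v
      rw [LinearMap.sub_apply, Module.End.mul_apply, Module.End.mul_apply,
        LinearMap.smul_apply] at this
      rw [← this]
      abel
    refine ⟨?_, χ, hχ'⟩
    obtain ⟨a, b, hab⟩ := hspan (X0 w) (hm w hw)
    have h1 := hsk X0 hX0 (Q w) w
    rw [hχ' w, map_add, map_smul, LinearMap.add_apply, LinearMap.smul_apply, hww, smul_zero,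
      add_zero] at h1
    have h2 := hsk Q hQg (X0 w) w
    rw [om_swap hω (X0 w) (Q w)] at h2
    have h3 : ω (Q w) (X0 w) = 0 := by
      have : (2 : ℂ) * ω (Q w) (X0 w) = 0 := by linear_combination h1 - h2
      exact (mul_eq_zero.mp this).resolve_left two_ne_zero
    rw [hab, map_add, map_smul, map_smul, hww, smul_zero, zero_add, smul_eq_mul] at h3
    have h4 := (mul_eq_zero.mp h3).resolve_right hωu
    refine ⟨a, ?_⟩
    rw [hab, h4, zero_smul, add_zero]
  have hU : ∀ X ∈ g, ∀ v ∈ Submodule.span ℂ {w, Q w}, X v ∈ Submodule.span ℂ {w, Q w} := by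
    intro X hX
    have hwU : w ∈ Submodule.span ℂ {w, Q w} := Submodule.subset_span (by simp)
    have hQU : Q w ∈ Submodule.span ℂ {w, Q w} := Submodule.subset_span (by simp)
    obtain ⟨X0, hX0, XP, hXP, XM, hXM, hsum, h0, hp1, hp2, hm1, hm2⟩ :=
      comp g J hbr hJg hJ X hX
    obtain ⟨⟨a, ha⟩, χ, hχ⟩ := hzero X0 hX0 h0
    obtain ⟨t, ht⟩ := hone XP hXP hp1 hp2
    have hle : Submodule.span ℂ {w, Q w} ≤ (Submodule.span ℂ {w, Q w}).comap X := by
      rw [Submodule.span_le]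
      intro v hv
      rcases hv with hv | hv
      · rw [hv, SetLike.mem_coe, Submodule.mem_comap]
        rw [hsum, LinearMap.add_apply, LinearMap.add_apply, hm2 w hw, add_zero, ha, ht,
          LinearMap.smul_apply]
        exact Submodule.add_mem _ (Submodule.smul_mem _ _ hwU) (Submodule.smul_mem _ _ hQU)
      · rw [Set.mem_singleton_iff] at hv
        rw [hv, SetLike.mem_coe, Submodule.mem_comap]
        rw [hsum, LinearMap.add_apply, LinearMap.add_apply, hp2 _ (hQ1 w), add_zero, hχ, ha,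
          map_smul]
        refine Submodule.add_mem _ (Submodule.add_mem _ (Submodule.smul_mem _ _ hQU)
          (Submodule.smul_mem _ _ hQU)) ?_
        obtain ⟨⟨b, hb'⟩, -⟩ := hzero (Q * XM - XM * Q) (hbr Q hQg XM hXM) (by
          intro v
          obtain ⟨p, hp, m, hm, rfl⟩ := dec hJ v
          have e1 := mem_Wp.mp hp
          have e2 := mem_Wm.mp hm
          have e3 := mem_Wp.mp (hQ1 (XM p))
          have e4 := mem_Wm.mp (hm1 (Q m))
          simp only [LinearMap.sub_apply, Module.End.mul_apply, map_add, map_sub, e1, e2, map_neg,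
            map_smul, hQ2 p hp, hm2 m hm, map_zero, e3, e4]
          module)
        rw [LinearMap.sub_apply, Module.End.mul_apply, Module.End.mul_apply, hm2 w hw, map_zero,
          zero_sub] at hb'
        rw [← neg_neg (XM (Q w)), hb']
        exact Submodule.neg_mem _ (Submodule.smul_mem _ _ hwU)
    intro v hv
    exact hle hv
  rcases hirr _ hU with h | h
  · have : w ∈ Submodule.span ℂ {w, Q w} := Submodule.subset_span (by simp)
    rw [h, Submodule.mem_bot] at this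
    exact hw0 this
  · have h1 : u ∈ Submodule.span ℂ {w, Q w} := by
      rw [h]
      trivial
    rw [Submodule.mem_span_pair] at h1
    obtain ⟨a, b, hab⟩ := h1
    have h2 : u - a • w = b • Q w := by rw [← hab]; abel
    have h3 : u - a • w ∈ Wm J := (Wm J).sub_mem hu ((Wm J).smul_mem _ hw)
    have h4 : u - a • w ∈ Wp J := by
      rw [h2]
      exact (Wp J).smul_mem _ (hQ1 w)
    have h5 := (Submodule.disjoint_def.mp (isCompl hJ).disjoint) _ h4 h3
    have h6 := (hli (-a) 1 (by rw [one_smul, neg_smul]; rw [← h5]; abel)).2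
    exact one_ne_zero h6

end SEU
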