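import Pool.Agent.Lib.SE.U.Spec

/-!
# PROJECT SE-U, module uA: adjoints (helper87)
-/

set_option autoImplicit false

open Module

noncomputable section

namespace SEU

open HC HC.E HC.SE SEB SES

namespace uA_aux

variable {T : AV}

/-- The Riemann form is nondegenerate. -/
theorem nondeg {E : T.V →ₗ[ℝ] T.V →ₗ[ℝ] ℝ} (hE : IsRf T E) (u : T.V) (h : ∀ v, E u v = 0) :
    u = 0 := by
  by_contra h0
  have h1 := hE.2.2.2 u h0
  have h2 := hE.2.1 (Complex.I • u) u
  rw [h] at h2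
  linarith

/-- A real linear form that vanishes on the lattice is zero. -/
theorem zero_of_lat (f : T.V →ₗ[ℝ] ℝ) (h : ∀ y ∈ T.L, f y = 0) (v : T.V) : f v = 0 := by
  have hv : v ∈ Submodule.span ℝ (T.L : Set T.V) := by
    rw [T.latt.span_top]
    exact Submodule.mem_top
  induction hv using Submodule.span_induction with
  | mem y hy => exact h y hy
  | zero => exact map_zero f
  | add y z _ _ hy hz => rw [map_add, hy, hz, add_zero]
  | smul c y _ hy => rw [map_smul, hy, smul_zero]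

/-- A vector is rational if its products with the lattice vectors are. -/
theorem rat_of {E : T.V →ₗ[ℝ] T.V →ₗ[ℝ] ℝ} (hE : IsRf T E) (v : T.V)
    (h : ∀ y ∈ T.L, ∃ N : ℕ, N ≠ 0 ∧ ∃ n : ℤ, (N : ℝ) * E v y = n) :
    ∃ N : ℕ, N ≠ 0 ∧ N • v ∈ T.L := by
  classical
  have hfree : Module.Free ℤ T.L := ZLattice.module_free ℝ T.L
  have hfin : Module.Finite ℤ T.L := ZLattice.module_finite ℝ T.L
  let ι := Module.Free.ChooseBasisIndex ℤ T.L
  let b0 : Basis ι ℤ T.L := Module.Free.chooseBasis ℤ T.L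
  let b := b0.ofZLatticeBasis ℝ T.L
  have hb : ∀ i, b i = (b0 i : T.V) := fun i => b0.ofZLatticeBasis_apply ℝ T.L i
  have hbL : ∀ i, b i ∈ T.L := fun i => by rw [hb]; exact (b0 i).2
  choose G hG using fun i j => hE.1 (b i) (hbL i) (b j) (hbL j)
  choose N hN n hn using fun j => h (b j) (hbL j)
  let A : Matrix ι ι ℤ := Matrix.of G
  have hx : ∀ x : ι → ℝ, Matrix.vecMul x (A.map (Int.cast : ℤ → ℝ)) =
      fun j => E (∑ i, x i • b i) (b j) := by
    intro x
    funext j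
    rw [map_sum, LinearMap.sum_apply, Matrix.vecMul, dotProduct]
    refine Finset.sum_congr rfl fun i _ => ?_
    rw [map_smul, LinearMap.smul_apply, hG i j, smul_eq_mul]
    rfl
  have hdet : A.det ≠ 0 := by
    intro h0
    have h1 : (A.map (Int.cast : ℤ → ℝ)).det = 0 := by
      have h2 := (Int.castRingHom ℝ).map_det A
      rw [h0, map_zero] at h2
      exact h2.symm
    obtain ⟨x, hx0, hx1⟩ := Matrix.exists_vecMul_eq_zero_iff.2 h1
    rw [hx] at hx1
    apply hx0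
    have h3 : ∑ i, x i • b i = 0 := by
      refine nondeg hE _ fun w => ?_
      have h4 : E (∑ i, x i • b i) = 0 := b.ext fun j => congrFun hx1 j
      rw [h4, LinearMap.zero_apply]
    have h5 := Fintype.linearIndependent_iff.1 b.linearIndependent x h3
    funext i
    exact h5 i
  -- coordinates
  let x : ι → ℝ := fun i => b.repr v i
  have hv : ∑ i, x i • b i = v := b.sum_repr v
  have h1 := hx x
  rw [hv] at h1
  have hmul : A.map (Int.cast : ℤ → ℝ) * A.adjugate.map (Int.cast : ℤ → ℝ) =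
      (A.det : ℝ) • (1 : Matrix ι ι ℝ) := by
    have h2 := congrArg (Int.castRingHom ℝ).mapMatrix A.mul_adjugate
    rw [map_mul] at h2
    have h3 : (Int.castRingHom ℝ).mapMatrix (A.det • (1 : Matrix ι ι ℤ)) =
        (A.det : ℝ) • (1 : Matrix ι ι ℝ) := by
      ext i j
      rw [RingHom.mapMatrix_apply, Matrix.map_apply, Matrix.smul_apply, Matrix.smul_apply,
        smul_eq_mul, smul_eq_mul, map_mul, Matrix.one_apply, Matrix.one_apply]
      split_ifs <;> simp
    rw [h3] at h2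
    exact h2
  have h2 : ∀ i, (A.det : ℝ) * x i = ∑ j, E v (b j) * (A.adjugate j i : ℝ) := by
    intro i
    have h3 : Matrix.vecMul (Matrix.vecMul x (A.map (Int.cast : ℤ → ℝ)))
        (A.adjugate.map (Int.cast : ℤ → ℝ)) i = (A.det : ℝ) * x i := by
      rw [Matrix.vecMul_vecMul, hmul, Matrix.vecMul_smul, Matrix.vecMul_one]
      rfl
    rw [← h3, h1]
    rfl
  obtain ⟨M, hMd⟩ : ∃ M : ℕ, M = ∏ j, N j := ⟨_, rfl⟩
  have hM : M ≠ 0 := by rw [hMd]; exact Finset.prod_ne_zero_iff.2 fun j _ => hN j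
  obtain ⟨d, hd⟩ : ∃ d : ℤ, d = A.det := ⟨_, rfl⟩
  rw [← hd] at hdet h2
  obtain ⟨B, hB⟩ : ∃ B : Matrix ι ι ℤ, B = A.adjugate := ⟨_, rfl⟩
  rw [← hB] at h2
  have hm : ∀ j, ∃ k : ℤ, (M : ℝ) * E v (b j) = k := by
    intro j
    refine ⟨(∏ i ∈ Finset.univ.erase j, (N i : ℤ)) * n j, ?_⟩
    have h3 : (M : ℝ) = (∏ i ∈ Finset.univ.erase j, (N i : ℝ)) * N j := by
      have h4 := Finset.prod_erase_mul Finset.univ N (Finset.mem_univ j)
      have h5 := congrArg (Nat.cast : ℕ → ℝ) h4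
      push_cast at h5
      rw [h5, hMd]
      push_cast
      rfl
    rw [h3, mul_assoc, hn]
    push_cast
    rfl
  choose k hk using hm
  have h4 : ∀ i, ((M : ℤ) * d : ℤ) • (x i • b i) ∈ T.L := by
    intro i
    have h5 : ((M : ℤ) * d : ℤ) • (x i • b i) = (∑ j, k j * B j i) • b i := by
      rw [← Int.cast_smul_eq_zsmul ℝ, ← Int.cast_smul_eq_zsmul ℝ, smul_smul]
      congr 1
      rw [Int.cast_mul, Int.cast_natCast, mul_assoc, h2, Finset.mul_sum, Int.cast_sum]
      refine Finset.sum_congr rfl fun j _ => ?_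
      rw [← mul_assoc, hk, Int.cast_mul]
    rw [h5]
    exact T.L.smul_mem _ (hbL i)
  have h6 : ((M : ℤ) * d : ℤ) • v ∈ T.L := by
    rw [← hv, Finset.smul_sum]
    exact T.L.sum_mem fun i _ => h4 i
  have h7 : (M : ℤ) * d ≠ 0 := mul_ne_zero (Int.natCast_ne_zero.2 hM) hdet
  refine ⟨((M : ℤ) * d).natAbs, Int.natAbs_ne_zero.2 h7, ?_⟩
  rw [← natCast_zsmul]
  rcases abs_choice ((M : ℤ) * d) with h8 | h8
  · rw [Int.natCast_natAbs, h8]
    exact h6
  · rw [Int.natCast_natAbs, h8, neg_smul]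
    exact T.L.neg_mem h6

/-- The adjoint exists. -/
theorem ex_adj {E : T.V →ₗ[ℝ] T.V →ₗ[ℝ] ℝ} (hE : IsRf T E) (Y : Module.End ℝ T.V) :
    ∃ Y' : Module.End ℝ T.V, ∀ u v, E (Y' u) v = E u (Y v) := by
  have hinj : Function.Injective E := by
    rw [← LinearMap.ker_eq_bot, eq_bot_iff]
    intro u hu
    rw [Submodule.mem_bot]
    exact nondeg hE u fun v => by
      rw [LinearMap.mem_ker.1 hu, LinearMap.zero_apply]
  have hfr : finrank ℝ T.V = finrank ℝ (T.V →ₗ[ℝ] ℝ) :=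
    (Subspace.dual_finrank_eq (K := ℝ) (V := T.V)).symm
  let φ := LinearMap.linearEquivOfInjective E hinj hfr
  have hφ : ∀ f : T.V →ₗ[ℝ] ℝ, E (φ.symm f) = f := fun f => φ.apply_symm_apply f
  refine ⟨φ.symm.toLinearMap ∘ₗ (Module.Dual.transpose Y) ∘ₗ E, fun u v => ?_⟩
  rw [LinearMap.comp_apply, LinearEquiv.coe_coe, hφ]
  rfl

/-- Rational endomorphisms: sums. -/
theorem rat_add {X Y : Module.End ℝ T.V} (hX : RatEnd T X) (hY : RatEnd T Y) :
    RatEnd T (X + Y) := by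
  intro v hv
  obtain ⟨M, hM, h1⟩ := hX v hv
  obtain ⟨N, hN, h2⟩ := hY v hv
  refine ⟨M * N, mul_ne_zero hM hN, ?_⟩
  have h3 : (M * N) • (X + Y) v = N • (M • X v) + M • (N • Y v) := by
    rw [LinearMap.add_apply, smul_add, mul_comm M N, mul_smul, mul_comm N M, mul_smul]
  rw [h3]
  exact T.L.add_mem (T.L.toAddSubgroup.nsmul_mem h1 N) (T.L.toAddSubgroup.nsmul_mem h2 M)

/-- Rational endomorphisms: negatives. -/
theorem rat_neg {X : Module.End ℝ T.V} (hX : RatEnd T X) : RatEnd T (-X) := by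
  intro v hv
  obtain ⟨M, hM, h1⟩ := hX v hv
  refine ⟨M, hM, ?_⟩
  rw [LinearMap.neg_apply, smul_neg]
  exact T.L.neg_mem h1

/-- Rational endomorphisms: products. -/
theorem rat_mul {X Y : Module.End ℝ T.V} (hX : RatEnd T X) (hY : RatEnd T Y) :
    RatEnd T (X * Y) := by
  intro v hv
  obtain ⟨N, hN, h2⟩ := hY v hv
  obtain ⟨M, hM, h1⟩ := hX _ h2
  refine ⟨M * N, mul_ne_zero hM hN, ?_⟩
  rw [Module.End.mul_apply, mul_smul, ← map_nsmul]
  exact h1

/-- The adjoint is rational. -/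
theorem rat_adj {E : T.V →ₗ[ℝ] T.V →ₗ[ℝ] ℝ} (hE : IsRf T E) {Y Y' : Module.End ℝ T.V}
    (hY : RatEnd T Y) (h : ∀ u v, E (Y' u) v = E u (Y v)) : RatEnd T Y' := by
  intro v hv
  refine rat_of hE _ fun y hy => ?_
  obtain ⟨N, hN, h1⟩ := hY y hy
  obtain ⟨n, hn⟩ := hE.1 v hv _ h1
  refine ⟨N, hN, n, ?_⟩
  rw [h, ← hn, map_nsmul, nsmul_eq_mul]

end uA_aux

open uA_aux in
/-- **S_uA**: adjoints. -/
theorem tuA : S_uA := by
  intro T E hE Y hY hCx hsc
  obtain ⟨hE1, hE2, hE3, hE4⟩ := hE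
  have hE : IsRf T E := ⟨hE1, hE2, hE3, hE4⟩
  obtain ⟨Y', hY'⟩ := ex_adj hE Y
  have hr : RatEnd T Y' := rat_adj hE hY hY'
  have hI : ∀ u v, E (Complex.I • u) v = -E u (Complex.I • v) := by
    intro u v
    have h3 := hE3 (Complex.I • u) v
    rw [smul_smul, Complex.I_mul_I, neg_one_smul, map_neg, LinearMap.neg_apply] at h3
    linarith
  have hY'' : ∀ u v, E (Y u) v = E u (Y' v) := by
    intro u v
    rw [hE2, ← hY', ← hE2]
  have hCx' : Cx Y' := by
    intro v
    rw [← sub_eq_zero]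
    refine nondeg hE _ fun u => ?_
    rw [map_sub, LinearMap.sub_apply, hY', hI v, hI (Y' v), hY', hCx, sub_neg_eq_add,
      neg_add_cancel]
  -- a test for first alternative
  by_cases hA : ∃ X : Module.End ℝ T.V, RatEnd T X ∧ Cx X ∧ Sy E X ∧ ¬ Scal X
  · exact Or.inl hA
  right
  push Not at hA
  obtain ⟨s, hs⟩ : Scal (Y + Y') := by
    refine hA _ (rat_add hY hr) (fun v => ?_) (fun u v => ?_)
    · rw [LinearMap.add_apply, LinearMap.add_apply, hCx, hCx', smul_add]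
    · rw [LinearMap.add_apply, LinearMap.add_apply, map_add, map_add, LinearMap.add_apply, hY',
        hY'', add_comm]
  set Z := Y + -Y' with hZ
  have hZr : RatEnd T Z := rat_add hY (rat_neg hr)
  have hZc : Cx Z := by
    intro v
    rw [hZ, LinearMap.add_apply, LinearMap.add_apply, LinearMap.neg_apply, LinearMap.neg_apply,
      hCx, hCx', smul_add, smul_neg]
  have hZs : ∀ u v, E (Z u) v = -E u (Z v) := by
    intro u v
    rw [hZ, LinearMap.add_apply, LinearMap.add_apply, LinearMap.neg_apply, LinearMap.neg_apply,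
      map_add, map_add, LinearMap.add_apply, map_neg, map_neg, LinearMap.neg_apply, hY', hY'']
    ring
  obtain ⟨k, hk⟩ : Scal (Z * Z) := by
    refine hA _ (rat_mul hZr hZr) (fun v => ?_) (fun u v => ?_)
    · rw [Module.End.mul_apply, Module.End.mul_apply, hZc, hZc]
    · rw [Module.End.mul_apply, Module.End.mul_apply, hZs, hZs, neg_neg]
  have hZ0 : ∃ u, Z u ≠ 0 := by
    by_contra hcon
    push Not at hcon
    apply hsc
    refine ⟨s / 2, LinearMap.ext fun v => ?_⟩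
    have h1 : Y v + -Y' v = 0 := hcon v
    have h2 : Y v + Y' v = s • v := congrArg (fun f : Module.End ℝ T.V => f v) hs
    have h3 : (2 : ℝ) • Y v = s • v := by
      rw [← h2, two_smul]
      have h4 : Y v = Y' v := by rwa [← sub_eq_add_neg, sub_eq_zero] at h1
      rw [h4]
    have h5 : Y v = (2 : ℝ)⁻¹ • ((2 : ℝ) • Y v) := by
      rw [smul_smul, inv_mul_cancel₀ two_ne_zero, one_smul]
    rw [h5, h3, smul_smul]
    change _ = (s / 2) • v
    congr 1
    ring
  obtain ⟨u, hu⟩ := hZ0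
  have hZZ : ∀ v, Z (Z v) = k • v := fun v => congrArg (fun f : Module.End ℝ T.V => f v) hk
  have hu0 : u ≠ 0 := fun h => hu (by rw [h, map_zero])
  have hkneg : k < 0 := by
    have h1 := hE4 (Z u) hu
    have h2 := hE4 u hu0
    rw [← hZc, hZs, hZZ, map_smul, smul_eq_mul] at h1
    by_contra h3
    push Not at h3
    nlinarith
  -- `k` is rational
  obtain ⟨q, hq⟩ : ∃ q : ℚ, k = q := by
    obtain ⟨v, hv, y, hy, hvy⟩ : ∃ v ∈ T.L, ∃ y ∈ T.L, E v y ≠ 0 := by
      by_contra hcon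
      push Not at hcon
      apply hu0
      refine nondeg hE u fun v => ?_
      have h1 : ∀ y ∈ T.L, E u y = 0 := by
        intro y hy
        exact zero_of_lat (E.flip y) (fun v hv => hcon v hv y hy) u
      exact zero_of_lat (E u) h1 v
    obtain ⟨N, hN, h1⟩ := rat_mul hZr hZr v hv
    have h2 : (Z * Z) v = k • v := hZZ v
    rw [h2] at h1
    obtain ⟨n, hn⟩ := hE1 _ h1 y hy
    obtain ⟨m, hm⟩ := hE1 v hv y hy
    rw [map_nsmul, LinearMap.smul_apply, map_smul, LinearMap.smul_apply, hm, nsmul_eq_mul,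
      smul_eq_mul] at hn
    have hm0 : (m : ℝ) ≠ 0 := by rw [← hm]; exact hvy
    have hN0 : (N : ℝ) ≠ 0 := Nat.cast_ne_zero.2 hN
    refine ⟨n / (N * m), ?_⟩
    push_cast
    rw [eq_div_iff (mul_ne_zero hN0 hm0), ← hn]
    ring
  refine ⟨Z, -q, hZr, hZc, fun u v => by rw [hZs]; ring, ?_, ?_⟩
  · have h1 : (q : ℝ) < 0 := by rw [← hq]; exact hkneg
    have h2 : q < 0 := by exact_mod_cast h1
    linarith
  · rw [hk, hq]
    push_cast
    rw [neg_neg]

end SEU
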