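import Pool.Agent.Lib.SE.U.Spec

/-!
# PROJECT SE-U, module uL: rational relations
-/

set_option autoImplicit false

open Module

noncomputable section

namespace SEU

open HC HC.E HC.SE SEB SES

namespace uL_aux

/-- The real basis of `T.V` in `T.L`. -/
def bs (T : AV) : Basis (Free.ChooseBasisIndex ℤ T.L) ℝ T.V :=
  (Free.chooseBasis ℤ T.L).ofZLatticeBasis ℝ T.L

theorem bs_mem (T : AV) (j : Free.ChooseBasisIndex ℤ T.L) : bs T j ∈ T.L := by
  unfold bs
  rw [Basis.ofZLatticeBasis_apply]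
  exact (Free.chooseBasis ℤ T.L j).2

theorem bs_int {T : AV} {v : T.V} (hv : v ∈ T.L) (i : Free.ChooseBasisIndex ℤ T.L) :
    ∃ n : ℤ, (bs T).repr v i = n :=
  ⟨_, (Free.chooseBasis ℤ T.L).ofZLatticeBasis_repr_apply ℝ T.L ⟨v, hv⟩ i⟩

theorem ent {T : AV} {X : Module.End ℝ T.V} (hX : RatEnd T X)
    (i j : Free.ChooseBasisIndex ℤ T.L) : ∃ q : ℚ, (bs T).repr (X (bs T j)) i = q := by
  obtain ⟨N, hN, h⟩ := hX _ (bs_mem T j)
  obtain ⟨n, hn⟩ := bs_int h i
  have hN' : (N : ℝ) ≠ 0 := Nat.cast_ne_zero.2 hN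
  rw [← Nat.cast_smul_eq_nsmul ℝ, map_smul, Finsupp.smul_apply, smul_eq_mul] at hn
  refine ⟨(n : ℚ) / N, ?_⟩
  push_cast
  rw [← hn, mul_div_cancel_left₀ _ hN']

end uL_aux

open uL_aux in
theorem tuL : S_uL := by
  intro T X Y hX hY hs x y hxy
  classical
  choose a ha using ent hX
  choose b hb using ent hY
  have key : ∀ i j, (b i j : ℝ) = x * (if j = i then 1 else 0) + y * a i j := by
    intro i j
    rw [← hb, ← ha, hxy, LinearMap.add_apply, LinearMap.smul_apply, LinearMap.smul_apply,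
      Module.End.one_apply, map_add, map_smul, map_smul, Finsupp.add_apply, Finsupp.smul_apply,
      Finsupp.smul_apply, Basis.repr_self, Finsupp.single_apply, smul_eq_mul, smul_eq_mul]
  have hy : ∃ q : ℚ, y = q := by
    by_cases h1 : ∃ i j, j ≠ i ∧ a i j ≠ 0
    · obtain ⟨i, j, hij, h⟩ := h1
      have k := key i j
      rw [if_neg hij, mul_zero, zero_add] at k
      have h' : (a i j : ℝ) ≠ 0 := Rat.cast_ne_zero.2 h
      refine ⟨b i j / a i j, ?_⟩
      push_cast
      rw [k, mul_div_cancel_right₀ _ h']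
    by_cases h2 : ∃ i j, a i i ≠ a j j
    · obtain ⟨i, j, h⟩ := h2
      have k1 := key i i
      have k2 := key j j
      rw [if_pos rfl] at k1 k2
      have h' : ((a i i : ℝ) - a j j) ≠ 0 := by
        rw [sub_ne_zero]
        exact fun h3 => h (Rat.cast_injective h3)
      refine ⟨(b i i - b j j) / (a i i - a j j), ?_⟩
      push_cast
      rw [eq_div_iff h']
      linear_combination k2 - k1
    refine (hs ?_).elim
    push Not at h1 h2
    rcases isEmpty_or_nonempty (Free.ChooseBasisIndex ℤ T.L) with he | ⟨⟨i0⟩⟩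
    · refine ⟨0, (bs T).ext fun j => (he.false j).elim⟩
    refine ⟨a i0 i0, (bs T).ext fun j => (bs T).ext_elem fun i => ?_⟩
    rw [ha, LinearMap.smul_apply, Module.End.one_apply, map_smul, Finsupp.smul_apply,
      Basis.repr_self, Finsupp.single_apply, smul_eq_mul]
    by_cases hij : j = i
    · rw [if_pos hij, mul_one, hij, h2 i i0]
    · rw [if_neg hij, mul_zero, h1 i j hij, Rat.cast_zero]
  obtain ⟨q, hq⟩ := hy
  rcases isEmpty_or_nonempty (Free.ChooseBasisIndex ℤ T.L) with he | ⟨⟨i0⟩⟩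
  · exact (hs ⟨0, (bs T).ext fun j => (he.false j).elim⟩).elim
  have k := key i0 i0
  rw [if_pos rfl, mul_one] at k
  refine ⟨b i0 i0 - q * a i0 i0, q, ?_, hq⟩
  push_cast
  rw [← hq]
  linear_combination -k

end SEU
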