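import Pool.Agent.Lib.SE.U.Spec
import Pool.Agent.Lib.SE.Big.RatSp
import Pool.Agent.Lib.SE.Big.Red
import Pool.Agent.Lib.SE.Big.Hm

/-!
# PROJECT SE-U: irreducibility (`S_uC`)
-/

set_option autoImplicit false

open Module

noncomputable section

namespace SEU

open HC HC.E HC.SE SEB SES

namespace uC_aux

/-- The trivial automorphism. -/
def triv (T : AV) (E : T.V →ₗ[ℝ] T.V →ₗ[ℝ] ℝ) (hE : IsRf T E) : Cyc T 1 where
  Z := LinearMap.id
  lat := fun v hv => hv
  cyc := by
    rw [Polynomial.cyclotomic_one, map_sub, Polynomial.aeval_X, map_one]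
    exact sub_self _
  ψ := E
  int := hE.1
  alt := hE.2.1
  cpx := hE.2.2.1
  pos := hE.2.2.2
  inv := fun _ _ => rfl

end uC_aux

open uC_aux in
theorem tuC : S_uC := by
  intro T E hE h hh hY U hU
  by_contra hcon
  rw [not_or] at hcon
  obtain ⟨hbot, htop⟩ := hcon
  obtain ⟨H, h1, h2, h3, h4, h5⟩ := tHm T 1 (triv T E hE)
  have hst : ∀ X ∈ h, ∀ a ∈ U, pre (mulI T * X * mulI T) a ∈ U := by
    intro X hX a ha
    have e1 : pre (mulI T * X * mulI T) a = pre (mulI T) (pre X (pre (mulI T) a)) := rfl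
    rw [e1]
    exact Red_aux.stab_span hU hh.J _ (hU X hX _ (Red_aux.stab_span hU hh.J _ ha))
  have hadd : ∀ a b c, H a (b + c) = H a b + H a c := by
    intro a b c
    rw [h3 (b + c) a, h3 b a, h3 c a, h1, map_add]
  have hsm : ∀ (x : ℂ) (a b : Frm T), H a (x • b) = (starRingEnd ℂ) x * H a b := by
    intro x a b
    rw [h3 (x • b) a, h2, map_mul, ← h3 b a]
  let U' : Submodule ℂ (Frm T) :=
    { carrier := {b | b ∈ (⊤ : Submodule ℂ (Frm T)) ∧ ∀ a ∈ U, H a b = 0}
      add_mem' := fun {b c} hb hc => ⟨add_mem hb.1 hc.1, fun a ha => by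
        rw [hadd, hb.2 a ha, hc.2 a ha, add_zero]⟩
      zero_mem' := ⟨zero_mem _, fun a ha => by
        have h := hsm 0 a 0
        rw [zero_smul, map_zero, zero_mul] at h
        exact h⟩
      smul_mem' := fun x b hb => ⟨Submodule.smul_mem _ x hb.1, fun a ha => by
        rw [hsm, hb.2 a ha, mul_zero]⟩ }
  obtain ⟨hs1, hs2⟩ := Red_aux.perp_compl H h1 h2 h3 h4 U ⊤ U' le_top fun b => Iff.rfl
  have hstab' : ∀ X ∈ h, ∀ b ∈ U', pre X b ∈ U' := by
    intro X hX b hb
    refine ⟨Submodule.mem_top, fun a ha => ?_⟩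
    have h6 : H (pre X b) a = H b (pre (mulI T * X * mulI T) a) :=
      h5 _ _ (Red_aux.adj (triv T E hE) (hh.sk X hX)) b a
    rw [h3 (pre X b) a, h6, ← h3 b]
    exact hb.2 _ (hst X hX a ha)
  have hc : IsCompl U U' := ⟨disjoint_iff.2 hs2, codisjoint_iff.2 hs1⟩
  set A : Module.End ℂ (Frm T) := U.subtype ∘ₗ U.projectionOnto U' hc with hA
  have hA1 : ∀ u ∈ U, A u = u := by
    intro u hu
    rw [hA, LinearMap.comp_apply]
    exact congrArg Subtype.val (Submodule.projectionOnto_apply_left hc ⟨u, hu⟩)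
  have hA2 : ∀ u ∈ U', A u = 0 := by
    intro u hu
    rw [hA, LinearMap.comp_apply, (Submodule.projectionOnto_apply_eq_zero_iff hc).2 hu, map_zero]
  have hAmem : ∀ x, A x ∈ U := fun x => (U.projectionOnto U' hc x).2
  have hcomm : ∀ X ∈ h, A * pre X = pre X * A := by
    intro X hX
    refine LinearMap.ext fun x => ?_
    have hx : x ∈ U ⊔ U' := by rw [hs1]; exact Submodule.mem_top
    obtain ⟨u, hu, u', hu', rfl⟩ := Submodule.mem_sup.1 hx
    rw [Module.End.mul_apply, Module.End.mul_apply, map_add, map_add, map_add, hA1 _ (hU X hX u hu),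
      hA2 _ (hstab' X hX u' hu'), hA1 u hu, hA2 u' hu', add_zero, add_zero]
  obtain ⟨n, c, Y, hAY, hYr, hYc⟩ := tRatSp T A
  have hsc : ∀ k, Scal (Y k) := fun k =>
    hY (Y k) (hYr k) fun X hX => hYc X (hh.rat X hX) (hcomm X hX) k
  choose r hr using hsc
  have hAs : ∀ a : Frm T, A a = (∑ k, c k * (r k : ℂ)) • a := by
    intro a
    rw [hAY, LinearMap.sum_apply, Finset.sum_smul]
    refine Finset.sum_congr rfl fun k _ => ?_
    rw [LinearMap.smul_apply, mul_smul]
    congr 1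
    rw [hr k]
    refine LinearMap.ext fun v => ?_
    change a ((r k • (1 : Module.End ℝ T.V)) v) = (r k : ℂ) * a v
    rw [LinearMap.smul_apply, Module.End.one_apply, map_smul, Complex.real_smul]
  obtain ⟨u, hu, hu0⟩ := (Submodule.ne_bot_iff U).1 hbot
  have hone : (∑ k, c k * (r k : ℂ)) = 1 := by
    have e1 := hAs u
    rw [hA1 u hu] at e1
    have e2 : ((∑ k, c k * (r k : ℂ)) - 1) • u = 0 := by
      rw [sub_smul, one_smul, ← e1, sub_self]
    rcases smul_eq_zero.1 e2 with e3 | e3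
    · exact sub_eq_zero.1 e3
    · exact absurd e3 hu0
  apply htop
  rw [eq_top_iff]
  intro x _
  have e1 := hAs x
  rw [hone, one_smul] at e1
  rw [← e1]
  exact hAmem x

end SEU
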