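import Pool.Agent.Lib.SE.U.Spec

/-!
# PROJECT SE-U, module uE: elliptic curves have real multiplication
-/

set_option autoImplicit false

open Module

noncomputable section

namespace SEU

open HC HC.E HC.SE SEB SES

theorem tuE : S_uE := by
  intro B hB
  refine ⟨ℚ, inferInstance, inferInstance, inferInstance,
    (algebraMap ℂ (Module.End ℂ B.V)).comp (algebraMap ℚ ℂ), ?_, ?_⟩
  · rw [hB, Module.finrank_self]
  · intro x v hv
    refine ⟨x.den, x.den_nz, ?_⟩
    have h1 : x.den • (((algebraMap ℂ (Module.End ℂ B.V)).comp (algebraMap ℚ ℂ) x).restrictScalars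
        ℝ) v = x.num • v := by
      have h2 : (((algebraMap ℂ (Module.End ℂ B.V)).comp (algebraMap ℚ ℂ) x).restrictScalars
        ℝ) v = (x : ℂ) • v := rfl
      rw [h2, ← Nat.cast_smul_eq_nsmul ℂ, smul_smul, ← Int.cast_smul_eq_zsmul ℂ]
      congr 1
      have h3 : (x.den : ℚ) * x = x.num := Rat.den_mul_eq_num x
      exact_mod_cast congrArg (fun y : ℚ => (y : ℂ)) h3
    rw [h1]
    exact B.L.smul_mem _ hv

end SEU
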