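import Pool.Agent.Lib.SE.U.Spec
import Pool.Agent.Lib.SE.Big.RatSp

/-!
# PROJECT SE-U: all abelian surfaces, module uJ: signature `(1,1)`
-/

set_option autoImplicit false

open Module

noncomputable section

namespace SEU

open HC HC.E HC.SE SEB SES

namespace uJ_aux

variable {T : AV}

/-- A Riemann form is nondegenerate. -/
theorem nd {E : T.V →ₗ[ℝ] T.V →ₗ[ℝ] ℝ} (hE : IsRf T E) {u : T.V} (h : ∀ v, E u v = 0) : u = 0 := by
  by_contra hu
  have h1 := hE.2.2.2 u hu
  rw [hE.2.1, h, neg_zero] at h1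
  exact lt_irrefl _ h1

theorem ei {E : T.V →ₗ[ℝ] T.V →ₗ[ℝ] ℝ} (hE : IsRf T E) (u v : T.V) :
    E (Complex.I • u) v = - E u (Complex.I • v) := by
  have h1 := hE.2.2.1 (Complex.I • u) v
  rw [smul_smul, Complex.I_mul_I, neg_one_smul, map_neg, LinearMap.neg_apply] at h1
  exact h1.symm

/-- Vectors with rational products with the lattice. -/
theorem rat_sol {E : T.V →ₗ[ℝ] T.V →ₗ[ℝ] ℝ} (hE : IsRf T E) {ι : Type} [Fintype ι]
    (b : Module.Basis ι ℝ T.V) (hbL : ∀ i, b i ∈ T.L) (w : T.V)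
    (hw : ∀ l, ∃ q : ℚ, E w (b l) = q) : ∃ N : ℕ, N ≠ 0 ∧ N • w ∈ T.L := by
  classical
  have hM : ∀ k l, ∃ n : ℤ, E (b k) (b l) = n := fun k l => hE.1 _ (hbL k) _ (hbL l)
  choose M hM using hM
  choose q hq using hw
  set φ : (ι → ℚ) →ₗ[ℚ] (ι → ℚ) := (Matrix.of fun l k => (M k l : ℚ)).mulVecLin with hφ
  have hφa : ∀ u l, ((φ u l : ℚ) : ℝ) = E (∑ k, (u k : ℝ) • b k) (b l) := by
    intro u l
    rw [hφ, Matrix.mulVecLin_apply, map_sum, LinearMap.sum_apply]
    simp only [Matrix.mulVec, dotProduct, Matrix.of_apply, Rat.cast_sum, Rat.cast_mul,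
      Rat.cast_intCast, map_smul, LinearMap.smul_apply, hM, smul_eq_mul]
    exact Finset.sum_congr rfl fun k _ => mul_comm _ _
  have hext : ∀ x y : T.V, (∀ l, E x (b l) = E y (b l)) → x = y := by
    intro x y h
    rw [← sub_eq_zero]
    refine nd hE fun v => ?_
    have h1 : E (x - y) = 0 := by
      refine b.ext fun l => ?_
      rw [map_sub, LinearMap.sub_apply, h, sub_self, LinearMap.zero_apply]
    rw [h1, LinearMap.zero_apply]
  have hinj : Function.Injective φ := by
    rw [← LinearMap.ker_eq_bot, LinearMap.ker_eq_bot']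
    intro u hu
    have h1 : (∑ k, (u k : ℝ) • b k) = 0 := by
      refine hext _ _ fun l => ?_
      rw [← hφa, hu, map_zero, LinearMap.zero_apply, Pi.zero_apply, Rat.cast_zero]
    funext k
    have h2 : b.repr (∑ k, (u k : ℝ) • b k) k = (u k : ℝ) := by
      rw [Module.Basis.repr_sum_self]
    rw [h1, map_zero, Finsupp.zero_apply] at h2
    rw [Pi.zero_apply]
    exact_mod_cast h2.symm
  obtain ⟨u, hu⟩ := (LinearMap.injective_iff_surjective.1 hinj) q
  have h1 : w = ∑ k, (u k : ℝ) • b k := by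
    refine hext _ _ fun l => ?_
    rw [← hφa, hu, hq]
  rw [h1]
  exact RatSp_aux.ex_sum _ _ fun k _ => RatSp_aux.ex_smul (hbL k) _

/-- The form `β`. -/
def bet {ι : Type} (b : Module.Basis ι ℝ T.V) (Z : Module.End ℝ T.V) (c : ℝ) (k l : ι) :
    T.V →ₗ[ℝ] T.V →ₗ[ℝ] ℝ :=
  LinearMap.mk₂ ℝ (fun x y => (b.repr x k * b.repr y l - b.repr x l * b.repr y k) -
    (b.repr (Z x) k * b.repr (Z y) l - b.repr (Z x) l * b.repr (Z y) k) / c)
    (by intro x x' y; simp only [map_add, Finsupp.add_apply]; ring)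
    (by intro a x y; simp only [map_smul, Finsupp.smul_apply, smul_eq_mul]; ring)
    (by intro x y y'; simp only [map_add, Finsupp.add_apply]; ring)
    (by intro a x y; simp only [map_smul, Finsupp.smul_apply, smul_eq_mul]; ring)

section
variable {ι : Type} (b : Module.Basis ι ℝ T.V) (Z : Module.End ℝ T.V) (c : ℝ) (k l : ι)

theorem bet_apply (x y : T.V) : bet b Z c k l x y =
    (b.repr x k * b.repr y l - b.repr x l * b.repr y k) -
    (b.repr (Z x) k * b.repr (Z y) l - b.repr (Z x) l * b.repr (Z y) k) / c := rfl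

theorem bet_alt (x y : T.V) : bet b Z c k l x y = - bet b Z c k l y x := by
  rw [bet_apply, bet_apply]
  ring

theorem zz {Z : Module.End ℝ T.V} {c : ℝ} (hZ : Z * Z = -c • 1) (x : T.V) :
    Z (Z x) = -(c • x) := by
  have h := LinearMap.congr_fun hZ x
  rw [neg_smul] at h
  exact h

theorem bet_Z (hc : c ≠ 0) (hZ : Z * Z = -c • 1) (x y : T.V) :
    bet b Z c k l (Z x) y = bet b Z c k l x (Z y) := by
  rw [bet_apply, bet_apply, zz hZ, zz hZ]
  simp only [map_neg, map_smul, Finsupp.neg_apply, Finsupp.smul_apply, smul_eq_mul]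
  field_simp
  ring

end

/-- Some `β` is not zero. -/
theorem bet_ne (hd : finrank ℂ T.V = 2) {ι : Type} [Fintype ι] (b : Module.Basis ι ℝ T.V)
    (Z : Module.End ℝ T.V) (c : ℝ) (hc : 0 < c) (hZ : Z * Z = -c • 1) :
    ∃ k l x y, bet b Z c k l x y ≠ 0 := by
  classical
  by_contra hcon
  push Not at hcon
  have : Nontrivial T.V := by
    apply Module.nontrivial_of_finrank_pos (R := ℂ)
    rw [hd]
    exact Nat.zero_lt_two
  obtain ⟨x, hx⟩ := exists_ne (0 : T.V)
  have hd4 : finrank ℝ T.V = 4 := by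
    rw [finrank_real_of_complex, hd]
  have hW : Submodule.span ℝ ({x, Z x} : Set T.V) < ⊤ := by
    refine lt_top_iff_ne_top.2 fun h => ?_
    have h1 : finrank ℝ (Submodule.span ℝ ({x, Z x} : Set T.V)) ≤ 2 := by
      have h2 := finrank_span_finset_le_card (R := ℝ) ({x, Z x} : Finset T.V)
      rw [Set.finrank, Finset.coe_insert, Finset.coe_singleton] at h2
      exact h2.trans Finset.card_le_two
    rw [h, finrank_top, hd4] at h1
    omega
  obtain ⟨g, hg0, hg⟩ := Submodule.exists_le_ker_of_lt_top _ hW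
  have hgx : g x = 0 := hg (Submodule.subset_span (by simp))
  have hgz : g (Z x) = 0 := hg (Submodule.subset_span (by simp))
  obtain ⟨y, hy⟩ : ∃ y, g y ≠ 0 := by
    by_contra h
    push Not at h
    exact hg0 (LinearMap.ext h)
  have hgs : ∀ v, ∑ l, g (b l) * b.repr v l = g v := by
    intro v
    conv_rhs => rw [← b.sum_repr v]
    rw [map_sum]
    refine Finset.sum_congr rfl fun l _ => ?_
    rw [map_smul, smul_eq_mul, mul_comm]
  have hk : ∀ k, b.repr x k * g y - b.repr (Z x) k * g (Z y) / c = 0 := by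
    intro k
    have h1 : ∑ l, g (b l) * bet b Z c k l x y = 0 :=
      Finset.sum_eq_zero fun l _ => by rw [hcon k l x y, mul_zero]
    have h2 : ∑ l, g (b l) * bet b Z c k l x y =
        b.repr x k * (∑ l, g (b l) * b.repr y l) - b.repr y k * (∑ l, g (b l) * b.repr x l) -
        (b.repr (Z x) k * (∑ l, g (b l) * b.repr (Z y) l) -
          b.repr (Z y) k * (∑ l, g (b l) * b.repr (Z x) l)) / c := by
      rw [Finset.mul_sum, Finset.mul_sum, Finset.mul_sum, Finset.mul_sum,
        ← Finset.sum_sub_distrib, ← Finset.sum_sub_distrib, Finset.sum_div,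
        ← Finset.sum_sub_distrib]
      refine Finset.sum_congr rfl fun l _ => ?_
      rw [bet_apply]
      ring
    rw [h2, hgs, hgs, hgs, hgs, hgx, hgz, mul_zero, mul_zero, sub_zero, sub_zero] at h1
    exact h1
  have h3 : g y • x = (g (Z y) / c) • Z x := by
    refine b.repr.injective ?_
    ext k
    rw [map_smul, map_smul, Finsupp.smul_apply, Finsupp.smul_apply, smul_eq_mul, smul_eq_mul]
    linear_combination hk k
  have h4 : x = (g (Z y) / c / g y) • Z x := by
    have h5 := congrArg (fun v => (g y)⁻¹ • v) h3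
    simp only [smul_smul, inv_mul_cancel₀ hy, one_smul] at h5
    refine h5.trans ?_
    congr 1
    ring
  set μ := g (Z y) / c / g y with hμ
  have h5 : Z x = -(μ * c) • x := by
    conv_lhs => rw [h4]
    rw [map_smul, zz hZ, smul_neg, smul_smul, neg_smul]
  rw [h5, smul_smul] at h4
  have h6 : (1 + μ ^ 2 * c) • x = 0 := by
    rw [add_smul, one_smul]
    nth_rewrite 1 [h4]
    rw [← add_smul]
    convert zero_smul ℝ x using 2
    ring
  rcases smul_eq_zero.1 h6 with h7 | h7
  · have : 0 ≤ μ ^ 2 * c := by positivity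
    linarith
  · exact hx h7

/-- The operator `K`. -/
def Kc (Z : Module.End ℝ T.V) (hZ : Cx Z) (s : ℝ) : T.V →ₗ[ℂ] T.V where
  toFun v := s • (Complex.I • Z v)
  map_add' u v := by rw [map_add, smul_add, smul_add]
  map_smul' z v := by
    have h3 : z • v = z.re • v + z.im • (Complex.I • v) := by
      conv_lhs => rw [← Complex.re_add_im z]
      rw [add_smul, mul_smul, Complex.coe_smul, Complex.coe_smul]
    have h4 : z • Z v = z.re • Z v + z.im • (Complex.I • Z v) := by
      conv_lhs => rw [← Complex.re_add_im z]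
      rw [add_smul, mul_smul, Complex.coe_smul, Complex.coe_smul]
    have h5 : Z (z • v) = z • Z v := by
      rw [h3, h4, map_add, map_smul, map_smul, hZ]
    rw [h5, RingHom.id_apply, smul_comm Complex.I z, smul_comm s z]

/-- `β` vanishes on a complex line on which `i` is a multiple of `Z`. -/
theorem line (hd : finrank ℂ T.V = 2) (Z : Module.End ℝ T.V)
    (β : T.V →ₗ[ℝ] T.V →ₗ[ℝ] ℝ) (halt : ∀ x y, β x y = - β y x)
    (hβ : ∀ x y, β (Z x) y = β x (Z y)) (t : ℝ) (W : Submodule ℂ T.V) (hW : W ≠ ⊤)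
    (hWt : ∀ x ∈ W, Complex.I • x = t • Z x) : ∀ x ∈ W, ∀ y ∈ W, β x y = 0 := by
  have h1 : finrank ℂ W ≤ 1 := by
    have := Submodule.finrank_lt hW
    omega
  obtain ⟨e, he⟩ := finrank_le_one_iff.1 h1
  have h2 : ∀ x ∈ W, ∃ a b : ℝ, x = a • (e : T.V) + b • (Complex.I • (e : T.V)) := by
    intro x hx
    obtain ⟨z, hz⟩ := he ⟨x, hx⟩
    have h3 : z • (e : T.V) = x := congrArg Subtype.val hz
    refine ⟨z.re, z.im, ?_⟩
    rw [← h3]
    conv_lhs => rw [← Complex.re_add_im z]
    rw [add_smul, mul_smul, Complex.coe_smul, Complex.coe_smul]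
  have h3 : β e e = 0 := by
    have := halt e e
    linarith
  have h4 : β e (Complex.I • (e : T.V)) = 0 := by
    have h5 := halt e (Z e)
    rw [hβ] at h5
    rw [hWt _ e.2, map_smul]
    have h6 : β e (Z e) = 0 := by linarith
    rw [h6, smul_zero]
  have h5 : β (Complex.I • (e : T.V)) e = 0 := by rw [halt, h4, neg_zero]
  have h6 : β (Complex.I • (e : T.V)) (Complex.I • (e : T.V)) = 0 := by
    have := halt (Complex.I • (e : T.V)) (Complex.I • (e : T.V))
    linarith
  intro x hx y hy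
  obtain ⟨a, b, rfl⟩ := h2 x hx
  obtain ⟨a', b', rfl⟩ := h2 y hy
  simp only [map_add, map_smul, LinearMap.add_apply, LinearMap.smul_apply, h3, h4, h5, h6,
    smul_zero, add_zero]

/-- `β(i x, i y) = β(x, y)`. -/
theorem bet_I (hd : finrank ℂ T.V = 2) (Z : Module.End ℝ T.V) (hZx : Cx Z) (c : ℝ) (hc : 0 < c)
    (hZ : Z * Z = -c • 1) (hJ : ∀ t : ℝ, mulI T ≠ t • Z)
    (β : T.V →ₗ[ℝ] T.V →ₗ[ℝ] ℝ) (halt : ∀ x y, β x y = - β y x)
    (hβ : ∀ x y, β (Z x) y = β x (Z y)) (x y : T.V) :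
    β (Complex.I • x) (Complex.I • y) = β x y := by
  set s : ℝ := (Real.sqrt c)⁻¹ with hs
  have hs2 : s ^ 2 * c = 1 := by
    rw [hs, inv_pow, Real.sq_sqrt hc.le, inv_mul_cancel₀ hc.ne']
  have hs0 : s ≠ 0 := by
    intro h
    rw [h] at hs2
    norm_num at hs2
  set K := Kc Z hZx s with hK
  have hKa : ∀ v, K v = s • (Complex.I • Z v) := fun v => rfl
  have hKK : ∀ v, K (K v) = v := by
    intro v
    have e1 : s * s * c = 1 := by linear_combination hs2
    rw [hKa, hKa, map_smul, hZx, zz hZ, smul_comm Complex.I s,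
      smul_smul Complex.I Complex.I, Complex.I_mul_I, neg_one_smul, neg_neg, smul_smul,
      smul_smul, e1, one_smul]
  -- on the line K v = v : i v = - s Z v
  have hp : ∀ v, K v = v → Complex.I • v = (-s) • Z v := by
    intro v hv
    have h1 := congrArg (fun w => Complex.I • w) hv
    simp only [hKa] at h1
    rw [← h1, smul_comm Complex.I s, smul_smul, Complex.I_mul_I, neg_one_smul, smul_neg,
      neg_smul]
  have hm : ∀ v, K v = -v → Complex.I • v = s • Z v := by
    intro v hv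
    have h1 := congrArg (fun w => Complex.I • w) hv
    simp only [hKa] at h1
    rw [smul_comm Complex.I s, smul_smul, Complex.I_mul_I, neg_one_smul, smul_neg,
      smul_neg, neg_inj] at h1
    exact h1.symm
  set Wp : Submodule ℂ T.V := LinearMap.ker (K - LinearMap.id) with hWp
  set Wm : Submodule ℂ T.V := LinearMap.ker (K + LinearMap.id) with hWm
  have hWp' : ∀ v, v ∈ Wp ↔ K v = v := by
    intro v
    rw [hWp, LinearMap.mem_ker, LinearMap.sub_apply, LinearMap.id_apply, sub_eq_zero]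
  have hWm' : ∀ v, v ∈ Wm ↔ K v = -v := by
    intro v
    rw [hWm, LinearMap.mem_ker, LinearMap.add_apply, LinearMap.id_apply, add_eq_zero_iff_eq_neg]
  have hmul : ∀ v, mulI T v = Complex.I • v := fun v => rfl
  have hpt : Wp ≠ ⊤ := by
    intro h
    refine hJ (-s) (LinearMap.ext fun v => ?_)
    rw [hmul, LinearMap.smul_apply]
    exact hp v ((hWp' v).1 (h ▸ Submodule.mem_top))
  have hmt : Wm ≠ ⊤ := by
    intro h
    refine hJ s (LinearMap.ext fun v => ?_)
    rw [hmul, LinearMap.smul_apply]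
    exact hm v ((hWm' v).1 (h ▸ Submodule.mem_top))
  have h1 := line hd Z β halt hβ (-s) Wp hpt fun v hv => hp v ((hWp' v).1 hv)
  have h2 := line hd Z β halt hβ s Wm hmt fun v hv => hm v ((hWm' v).1 hv)
  have h3 : ∀ u ∈ Wp, ∀ v ∈ Wm, β (Complex.I • u) (Complex.I • v) = β u v := by
    intro u hu v hv
    rw [hp u ((hWp' u).1 hu), hm v ((hWm' v).1 hv), map_smul, map_smul, LinearMap.smul_apply, hβ,
      zz hZ, map_neg, map_smul, smul_eq_mul, smul_eq_mul, smul_eq_mul]
    linear_combination (β u v) * hs2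
  have hdec : ∀ v, ∃ p ∈ Wp, ∃ q ∈ Wm, v = p + q := by
    intro v
    refine ⟨(2 : ℂ)⁻¹ • (v + K v), ?_, (2 : ℂ)⁻¹ • (v - K v), ?_, ?_⟩
    · rw [hWp', map_smul, map_add, hKK, add_comm]
    · rw [hWm', map_smul, map_sub, hKK, ← smul_neg, neg_sub]
    · rw [← smul_add, add_add_sub_cancel, ← two_smul ℂ v, smul_smul,
        inv_mul_cancel₀ two_ne_zero, one_smul]
  obtain ⟨p, hp1, q, hq1, rfl⟩ := hdec x
  obtain ⟨p', hp2, q', hq2, rfl⟩ := hdec y
  have e1 := h1 p hp1 p' hp2
  have e2 := h2 q hq1 q' hq2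
  have e3 := h1 _ (Wp.smul_mem Complex.I hp1) _ (Wp.smul_mem Complex.I hp2)
  have e4 := h2 _ (Wm.smul_mem Complex.I hq1) _ (Wm.smul_mem Complex.I hq2)
  have e5 := h3 p hp1 q' hq2
  have e6 := h3 p' hp2 q hq1
  have e7 := halt (Complex.I • q) (Complex.I • p')
  have e8 := halt q p'
  simp only [smul_add, map_add, LinearMap.add_apply]
  linarith

end uJ_aux

open uJ_aux RatSp_aux in
theorem tuJ : S_uJ := by
  intro T E hE hd Z c hZr hZx hZs hc hZ hJ
  have hc' : (0 : ℝ) < (c : ℝ) := by exact_mod_cast hc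
  obtain ⟨ι, _, b, hbL, hbZ⟩ := lat_basis T
  obtain ⟨k, l, x0, y0, hxy⟩ := bet_ne hd b Z (c : ℝ) hc' hZ
  obtain ⟨β, hβd⟩ : ∃ β, β = bet b Z (c : ℝ) k l := ⟨_, rfl⟩
  rw [← hβd] at hxy
  have halt : ∀ x y, β x y = - β y x := by
    rw [hβd]
    exact bet_alt b Z c k l
  have hβZ : ∀ x y, β (Z x) y = β x (Z y) := by
    rw [hβd]
    exact bet_Z b Z c k l hc'.ne' hZ
  have hβI := bet_I hd Z hZx c hc' hZ hJ β halt hβZ
  have hβq : ∀ u ∈ T.L, ∀ v ∈ T.L, ∃ q : ℚ, β u v = q := by
    intro u hu v hv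
    have e1 : ∀ w ∈ T.L, ∀ i, ∃ q : ℚ, b.repr w i = q := by
      intro w hw i
      obtain ⟨n, hn⟩ := hbZ w hw i
      exact ⟨n, by rw [hn]; norm_cast⟩
    obtain ⟨a1, h1⟩ := e1 u hu k
    obtain ⟨a2, h2⟩ := e1 u hu l
    obtain ⟨a3, h3⟩ := e1 v hv k
    obtain ⟨a4, h4⟩ := e1 v hv l
    obtain ⟨a5, h5⟩ := co b hbZ (hZr u hu) k
    obtain ⟨a6, h6⟩ := co b hbZ (hZr u hu) l
    obtain ⟨a7, h7⟩ := co b hbZ (hZr v hv) k
    obtain ⟨a8, h8⟩ := co b hbZ (hZr v hv) l
    refine ⟨(a1 * a4 - a2 * a3) - (a5 * a8 - a6 * a7) / c, ?_⟩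
    rw [hβd, bet_apply, h1, h2, h3, h4, h5, h6, h7, h8]
    push_cast
    ring
  -- the operator
  have hfd : FiniteDimensional ℝ T.V := FiniteDimensional.complexToReal T.V
  have hEi : Function.Injective E := by
    rw [← LinearMap.ker_eq_bot, LinearMap.ker_eq_bot']
    intro u hu
    exact nd hE fun v => by rw [hu, LinearMap.zero_apply]
  have hfr : finrank ℝ T.V = finrank ℝ (T.V →ₗ[ℝ] ℝ) :=
    (Subspace.dual_finrank_eq (K := ℝ) (V := T.V)).symm
  set Ee : T.V ≃ₗ[ℝ] (T.V →ₗ[ℝ] ℝ) := LinearMap.linearEquivOfInjective E hEi hfr with hEe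
  set X : Module.End ℝ T.V := Ee.symm.toLinearMap ∘ₗ β with hX
  have hEX : ∀ u v, E (X u) v = β u v := by
    intro u v
    have h1 : Ee (X u) = β u := by
      rw [hX, LinearMap.comp_apply]
      exact Ee.apply_symm_apply _
    have h2 : Ee (X u) = E (X u) := LinearMap.linearEquivOfInjective_apply _ _ _
    rw [← h2, h1]
  refine ⟨X, ?_, ?_, ?_, ?_⟩
  · intro v hv
    refine rat_sol hE b hbL _ fun i => ?_
    rw [hEX]
    exact hβq v hv _ (hbL i)
  · intro v
    rw [← sub_eq_zero]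
    refine nd hE fun w => ?_
    rw [map_sub, LinearMap.sub_apply, hEX, ei hE, hEX]
    have h1 := hβI (Complex.I • v) w
    rw [smul_smul, Complex.I_mul_I, neg_one_smul, map_neg, LinearMap.neg_apply] at h1
    linarith
  · intro u v
    rw [hEX, halt, ← hEX, hE.2.1, neg_neg]
  · rintro ⟨t, ht⟩
    have h1 : ∀ u v, β u v = t * E u v := by
      intro u v
      rw [← hEX, ht]
      simp
    have h2 : t = 0 := by
      by_contra h0
      have h3 : ∀ u, Z u = 0 := by
        intro u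
        refine nd hE fun v => ?_
        have h4 := hβZ u v
        rw [h1, h1] at h4
        have h5 := hZs u v
        have h6 := mul_left_cancel₀ h0 h4
        linarith
      have h4 := h3 (Z x0)
      rw [zz hZ] at h4
      have h5 : x0 = 0 := by
        have h6 := neg_eq_zero.1 h4
        exact (smul_eq_zero.1 h6).resolve_left hc'.ne'
      apply hxy
      rw [h5, map_zero, LinearMap.zero_apply]
    apply hxy
    rw [h1, h2, zero_mul]

end SEU
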