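import Pool.Agent.Lib.SE.U.Spec
import Pool.Agent.Lib.SE.Big.A4

/-!
# PROJECT SE-U, module uM: an imaginary quadratic field acting by scalars gives CM type (helper90)
-/

set_option autoImplicit false

open Module

noncomputable section

namespace SEU

open HC HC.E HC.SE SEB SES

namespace uM_aux

/-- the imaginary quadratic field `ℚ + ℚ z`, `z² = -c`, as a subfield of `ℂ` -/
def Kf (z : ℂ) (c : ℚ) (hc : 0 < c) (hz : z ^ 2 = -(c : ℂ)) : Subfield ℂ where
  carrier := {x | ∃ a b : ℚ, x = a + b * z}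
  mul_mem' := by
    rintro x y ⟨a, b, rfl⟩ ⟨a', b', rfl⟩
    refine ⟨a * a' - b * b' * c, a * b' + b * a', ?_⟩
    push_cast
    linear_combination (b : ℂ) * b' * hz
  one_mem' := ⟨1, 0, by push_cast; ring⟩
  add_mem' := by
    rintro x y ⟨a, b, rfl⟩ ⟨a', b', rfl⟩
    exact ⟨a + a', b + b', by push_cast; ring⟩
  zero_mem' := ⟨0, 0, by push_cast; ring⟩
  neg_mem' := by
    rintro x ⟨a, b, rfl⟩
    exact ⟨-a, -b, by push_cast; ring⟩
  inv_mem' := by
    rintro x ⟨a, b, rfl⟩
    by_cases h : a = 0 ∧ b = 0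
    · refine ⟨0, 0, ?_⟩
      rw [h.1, h.2]
      simp
    · have hd : (0 : ℚ) < a ^ 2 + c * b ^ 2 := by
        rcases not_and_or.1 h with h1 | h1
        · have : 0 < a ^ 2 := by positivity
          nlinarith [mul_nonneg hc.le (sq_nonneg b)]
        · have : 0 < c * b ^ 2 := by positivity
          nlinarith [sq_nonneg a]
      have hd' : ((a ^ 2 + c * b ^ 2 : ℚ) : ℂ) ≠ 0 := by exact_mod_cast hd.ne'
      have e : ((a : ℂ) + b * z) * ((a : ℂ) - b * z) = ((a ^ 2 + c * b ^ 2 : ℚ) : ℂ) := by
        push_cast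
        linear_combination -(b : ℂ) ^ 2 * hz
      refine ⟨a / (a ^ 2 + c * b ^ 2), -b / (a ^ 2 + c * b ^ 2), ?_⟩
      have e2 : ((a : ℂ) + b * z)⁻¹ = ((a : ℂ) - b * z) / ((a ^ 2 + c * b ^ 2 : ℚ) : ℂ) := by
        apply inv_eq_of_mul_eq_one_right
        rw [← mul_div_assoc, e, div_self hd']
      rw [e2, Rat.cast_div, Rat.cast_div, Rat.cast_neg]
      ring

variable {z : ℂ} {c : ℚ} {hc : 0 < c} {hz : z ^ 2 = -(c : ℂ)}

theorem mem_Kf {x : ℂ} : x ∈ Kf z c hc hz ↔ ∃ a b : ℚ, x = a + b * z := Iff.rfl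

/-- the generator -/
def gen (z : ℂ) (c : ℚ) (hc : 0 < c) (hz : z ^ 2 = -(c : ℂ)) : Kf z c hc hz :=
  ⟨z, 0, 1, by push_cast; ring⟩

theorem exi (x : Kf z c hc hz) : ∃ a b : ℚ, x = (a : Kf z c hc hz) + b * gen z c hc hz := by
  obtain ⟨a, b, h⟩ := x.2
  refine ⟨a, b, Subtype.ext ?_⟩
  rw [h]
  push_cast
  rfl

theorem gen_sq : gen z c hc hz ^ 2 = -((c : ℚ) : Kf z c hc hz) := by
  apply Subtype.ext
  push_cast
  exact hz

instance : NumberField (Kf z c hc hz) where
  to_charZero := inferInstance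
  to_finiteDimensional := by
    refine Module.Finite.of_surjective
      (Fintype.linearCombination ℚ ![(1 : Kf z c hc hz), gen z c hc hz]) ?_
    intro x
    obtain ⟨a, b, rfl⟩ := exi x
    refine ⟨![a, b], ?_⟩
    rw [Fintype.linearCombination_apply, Fin.sum_univ_two]
    simp [Rat.smul_def]

theorem phi_sq (φ : Kf z c hc hz →+* ℂ) : φ (gen z c hc hz) ^ 2 = -(c : ℂ) := by
  rw [← map_pow, gen_sq, map_neg, map_ratCast]

theorem phi_conj (φ : Kf z c hc hz →+* ℂ) :
    (starRingEnd ℂ) (φ (gen z c hc hz)) = -φ (gen z c hc hz) := by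
  have h1 := phi_sq φ
  generalize φ (gen z c hc hz) = w at h1
  have hc' : (0 : ℝ) < c := by exact_mod_cast hc
  have hre : w.re ^ 2 - w.im ^ 2 = -(c : ℝ) := by
    have := congrArg Complex.re h1
    rw [sq, Complex.mul_re] at this
    have e : (-(c : ℂ)).re = -(c : ℝ) := by
      rw [Complex.neg_re]
      norm_cast
    rw [e] at this
    linarith
  have him : 2 * (w.re * w.im) = 0 := by
    have := congrArg Complex.im h1
    rw [sq, Complex.mul_im] at this
    have e : (-(c : ℂ)).im = 0 := by
      rw [Complex.neg_im]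
      norm_cast
      simp
    rw [e] at this
    linarith
  have hre0 : w.re = 0 := by
    rcases mul_eq_zero.1 (by linarith : w.re * w.im = 0) with h | h
    · exact h
    · rw [h] at hre
      nlinarith [sq_nonneg w.re]
  apply Complex.ext
  · rw [Complex.conj_re, Complex.neg_re, hre0, neg_zero]
  · rw [Complex.conj_im, Complex.neg_im]

theorem gen_ne (φ : Kf z c hc hz →+* ℂ) : φ (gen z c hc hz) ≠ 0 := by
  intro h0
  have h1 := phi_sq φ
  rw [h0] at h1
  have hc' : (c : ℂ) ≠ 0 := by exact_mod_cast hc.ne'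
  apply hc'
  linear_combination h1

theorem phi_ext {φ φ' : Kf z c hc hz →+* ℂ} (h : φ (gen z c hc hz) = φ' (gen z c hc hz)) :
    φ = φ' := by
  ext x
  obtain ⟨a, b, rfl⟩ := exi x
  rw [map_add, map_mul, map_ratCast, map_ratCast, h, map_add, map_mul, map_ratCast, map_ratCast]

theorem isCM : NumberField.IsCMField (Kf z c hc hz) := by
  refine A4_aux.cm_of_conj _ (fun φ hφ => ?_) (fun x => ?_)
  · have h1 : (NumberField.ComplexEmbedding.conjugate φ) (gen z c hc hz) = φ (gen z c hc hz) := by
      rw [hφ]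
    have h2 : (starRingEnd ℂ) (φ (gen z c hc hz)) = φ (gen z c hc hz) := h1
    rw [phi_conj] at h2
    apply gen_ne φ
    linear_combination (-1 / 2 : ℂ) * h2
  · obtain ⟨a, b, rfl⟩ := exi x
    refine ⟨(a : Kf z c hc hz) - b * gen z c hc hz, fun φ => ?_⟩
    rw [map_sub, map_mul, map_ratCast, map_ratCast, map_add, map_mul, map_ratCast, map_ratCast,
      map_add, map_mul, phi_conj]
    have e : ∀ q : ℚ, (starRingEnd ℂ) (q : ℂ) = q := fun q => map_ratCast _ q
    rw [e, e]
    ring

theorem isType : IsType ({(Kf z c hc hz).subtype} : Set (Kf z c hc hz →+* ℂ)) := by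
  intro φ
  rw [Set.mem_singleton_iff, Set.mem_singleton_iff]
  constructor
  · rintro rfl h
    have h1 := DFunLike.congr_fun h (gen z c hc hz)
    have h2 : (starRingEnd ℂ) ((Kf z c hc hz).subtype (gen z c hc hz)) =
      (Kf z c hc hz).subtype (gen z c hc hz) := h1
    rw [phi_conj] at h2
    apply gen_ne (Kf z c hc hz).subtype
    linear_combination (-1 / 2 : ℂ) * h2
  · intro h
    have h1 := phi_sq φ
    have h2 := phi_sq (Kf z c hc hz).subtype
    rcases sq_eq_sq_iff_eq_or_eq_neg.1 (h1.trans h2.symm) with h3 | h3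
    · exact phi_ext h3
    · exfalso
      apply h
      apply phi_ext
      have h4 : (NumberField.ComplexEmbedding.conjugate φ) (gen z c hc hz) =
        (starRingEnd ℂ) (φ (gen z c hc hz)) := rfl
      rw [h4, phi_conj, h3, neg_neg]

/-- a complex basis of `T.V` in the lattice -/
theorem exists_basis (T : AV) : ∃ e : Module.Basis (Fin (finrank ℂ T.V)) ℂ T.V, ∀ i, e i ∈ T.L := by
  obtain ⟨b, hb, hsp, hli⟩ := exists_linearIndependent ℂ (T.L : Set T.V)
  have htop : Submodule.span ℂ (T.L : Set T.V) = ⊤ := by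
    have h1 : Submodule.span ℝ (T.L : Set T.V) = ⊤ := IsZLattice.span_top
    rw [eq_top_iff]
    intro v _
    have h2 : v ∈ Submodule.span ℝ (T.L : Set T.V) := by
      rw [h1]
      exact Submodule.mem_top
    have h3 := Submodule.span_le_restrictScalars ℝ ℂ (T.L : Set T.V)
    exact h3 h2
  have hb' : ⊤ ≤ Submodule.span ℂ (Set.range (fun x : b => (x : T.V))) := by
    rw [Subtype.range_coe_subtype, Set.ofPred_mem_eq, hsp, htop]
  let e0 : Module.Basis b ℂ T.V := Module.Basis.mk hli hb'
  let _ : Fintype b := FiniteDimensional.fintypeBasisIndex e0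
  have hcard : Fintype.card b = finrank ℂ T.V := (finrank_eq_card_basis e0).symm
  refine ⟨e0.reindex (Fintype.equivFinOfCardEq hcard), fun i => ?_⟩
  rw [Module.Basis.reindex_apply, Module.Basis.mk_apply]
  exact hb (Subtype.coe_prop _)

/-- the coordinates of the lattice vectors are in the field -/
theorem coord (T : AV) (Z : Module.End ℝ T.V) (hZ : RatEnd T Z) (hz1 : ∀ v, Z v = z • v)
    (e : Module.Basis (Fin (finrank ℂ T.V)) ℂ T.V) (he : ∀ i, e i ∈ T.L) (v : T.V) (hv : v ∈ T.L)
    (hzim : z.re = 0 ∧ z.im ≠ 0) (i : Fin (finrank ℂ T.V)) : e.repr v i ∈ Kf z c hc hz := by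
  classical
  have : Module.Finite ℤ T.L := ZLattice.module_finite ℝ T.L
  choose N hN hNL using fun k => hZ (e k) (he k)
  let f : Option (Fin (finrank ℂ T.V) ⊕ Fin (finrank ℂ T.V)) → T.L := fun o =>
    match o with
    | none => ⟨v, hv⟩
    | some (Sum.inl k) => ⟨e k, he k⟩
    | some (Sum.inr k) => ⟨N k • Z (e k), hNL k⟩
  have hf : ¬ LinearIndependent ℤ f := by
    intro h
    have h1 := h.fintype_card_le_finrank
    rw [ZLattice.rank ℝ T.L, finrank_real_of_complex, Fintype.card_option, Fintype.card_sum,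
      Fintype.card_fin] at h1
    omega
  rw [Fintype.not_linearIndependent_iff] at hf
  obtain ⟨g, hg, o, ho⟩ := hf
  have hg' : (g none : ℂ) • v + ∑ k, ((g (some (Sum.inl k)) : ℂ) +
      (g (some (Sum.inr k)) : ℂ) * N k * z) • e k = 0 := by
    have h1 := congrArg (fun x : T.L => (x : T.V)) hg
    simp only [Fintype.sum_option, Fintype.sum_sum_type] at h1
    rw [← add_assoc] at h1
    have h2 : ((g none • f none + ∑ k, g (some (Sum.inl k)) • f (some (Sum.inl k)) +
        ∑ k, g (some (Sum.inr k)) • f (some (Sum.inr k)) : T.L) : T.V) =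
        (g none : ℂ) • v + ∑ k, ((g (some (Sum.inl k)) : ℂ) +
      (g (some (Sum.inr k)) : ℂ) * N k * z) • e k := by
      rw [Submodule.coe_add, Submodule.coe_add, AddSubmonoidClass.coe_finsetSum,
        AddSubmonoidClass.coe_finsetSum, add_assoc, ← Finset.sum_add_distrib]
      congr 1
      · rw [Submodule.coe_smul, Int.cast_smul_eq_zsmul]
      · refine Finset.sum_congr rfl fun k _ => ?_
        rw [Submodule.coe_smul, Submodule.coe_smul]
        change g (some (Sum.inl k)) • e k + g (some (Sum.inr k)) • (N k • Z (e k)) = _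
        rw [hz1, add_smul, Int.cast_smul_eq_zsmul, mul_smul, mul_smul, Int.cast_smul_eq_zsmul,
          Nat.cast_smul_eq_nsmul]
    rw [← h2]
    exact h1
  have hrep : ∀ k, (g none : ℂ) * e.repr v k + ((g (some (Sum.inl k)) : ℂ) +
      (g (some (Sum.inr k)) : ℂ) * N k * z) = 0 := by
    intro k
    have h1 := congrArg (fun x => e.repr x k) hg'
    simp only [map_add, map_smul, map_sum, Finsupp.add_apply, Finsupp.smul_apply,
      Finsupp.finsetSum_apply, Module.Basis.repr_self, map_zero, Finsupp.zero_apply,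
      smul_eq_mul] at h1
    rw [Finset.sum_eq_single k] at h1
    · rw [Finsupp.single_eq_same, mul_one] at h1
      exact h1
    · intro j _ hj
      rw [Finsupp.single_eq_of_ne (Ne.symm hj), mul_zero]
    · intro h
      exact absurd (Finset.mem_univ k) h
  have hg0 : g none ≠ 0 := by
    intro h0
    have key : ∀ k, g (some (Sum.inl k)) = 0 ∧ g (some (Sum.inr k)) = 0 := by
      intro k
      have h1 := hrep k
      rw [h0, Int.cast_zero, zero_mul, zero_add] at h1
      have him := congrArg Complex.im h1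
      have hre := congrArg Complex.re h1
      simp only [Complex.add_re, Complex.add_im, Complex.mul_re, Complex.mul_im, Complex.intCast_re,
        Complex.intCast_im, Complex.natCast_re, Complex.natCast_im, Complex.zero_re,
        Complex.zero_im, hzim.1] at him hre
      have h2 : (g (some (Sum.inr k)) : ℝ) * N k * z.im = 0 := by linarith
      have hN' : (N k : ℝ) ≠ 0 := Nat.cast_ne_zero.2 (hN k)
      have h3 : (g (some (Sum.inr k)) : ℝ) = 0 := by
        rcases mul_eq_zero.1 h2 with h3 | h3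
        · exact (mul_eq_zero.1 h3).resolve_right hN'
        · exact absurd h3 hzim.2
      have h4 : (g (some (Sum.inl k)) : ℝ) = 0 := by
        rw [h3] at hre
        linarith
      exact ⟨by exact_mod_cast h4, by exact_mod_cast h3⟩
    rcases o with _ | k | k
    · exact ho h0
    · exact ho (key k).1
    · exact ho (key k).2
  rw [mem_Kf]
  have hg0' : (g none : ℂ) ≠ 0 := by exact_mod_cast hg0
  refine ⟨-(g (some (Sum.inl i)) : ℚ) / g none, -((g (some (Sum.inr i)) : ℚ) * N i) / g none, ?_⟩
  push_cast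
  field_simp
  linear_combination hrep i

end uM_aux

open uM_aux in
theorem tuM : S_uM := by
  intro T Z c t hZ hc hZ2 hI
  -- `Z` is the multiplication by `z = i / t`
  by_cases hV : finrank ℂ T.V = 0
  · -- the trivial case
    have : Subsingleton T.V := Module.finrank_zero_iff.1 hV
    refine ⟨0, fun i => i.elim0, fun i => i.elim0, fun i => i.elim0, fun i => i.elim0,
      fun i => i.elim0, fun i => i.elim0, ?_⟩
    refine ⟨LinearEquiv.ofSubsingleton _ _, ?_⟩
    intro v _
    exact ⟨fun i => i.elim0, fun i => i.elim0⟩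
  · have : Nontrivial T.V := Module.nontrivial_of_finrank_pos (R := ℂ) (Nat.pos_of_ne_zero hV)
    have hI1 : ∀ v, Complex.I • v = t • Z v := fun v => DFunLike.congr_fun hI v
    have hZZ : ∀ v, Z (Z v) = -((c : ℝ) • v) := by
      intro v
      have := DFunLike.congr_fun hZ2 v
      rw [Module.End.mul_apply] at this
      rw [this]
      simp
    have hct : t ^ 2 * (c : ℝ) = 1 := by
      obtain ⟨v, hv⟩ := exists_ne (0 : T.V)
      have h1 : Complex.I • (Complex.I • v) = -v := by
        rw [smul_smul, Complex.I_mul_I, neg_smul, one_smul]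
      have h2 : Complex.I • (Complex.I • v) = -((t ^ 2 * c) • v) := by
        rw [hI1 (Complex.I • v), hI1 v, map_smul, hZZ, smul_neg, smul_neg, smul_smul, smul_smul]
        congr 2
        ring
      rw [h1] at h2
      have h3 : ((t ^ 2 * c) - 1) • v = 0 := by
        rw [sub_smul, one_smul, sub_eq_zero]
        exact (neg_injective h2).symm
      have h4 := (smul_eq_zero.1 h3).resolve_right hv
      linarith
    have ht : t ≠ 0 := by
      rintro rfl
      norm_num at hct
    obtain ⟨z, hzdef⟩ : ∃ z : ℂ, z = ((t⁻¹ : ℝ) : ℂ) * Complex.I := ⟨_, rfl⟩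
    have hz1 : ∀ v, Z v = z • v := by
      intro v
      rw [hzdef, mul_smul, hI1, Complex.coe_smul, smul_smul, inv_mul_cancel₀ ht, one_smul]
    have hz : z ^ 2 = -(c : ℂ) := by
      have h1 : (t⁻¹) ^ 2 = (c : ℝ) := by
        rw [inv_pow]
        exact inv_eq_of_mul_eq_one_right hct
      rw [hzdef, mul_pow, Complex.I_sq, ← Complex.ofReal_pow, h1]
      push_cast
      ring
    have hzim : z.re = 0 ∧ z.im ≠ 0 := by
      rw [hzdef]
      constructor
      · simp
      · simp [ht]
    obtain ⟨e, he⟩ := exists_basis T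
    refine ⟨finrank ℂ T.V, fun _ => Kf z c hc hz, fun _ => inferInstance, fun _ => inferInstance,
      fun _ => isCM, fun _ => {(Kf z c hc hz).subtype}, fun _ => isType, ?_⟩
    refine ⟨e.equivFun.trans (LinearEquiv.funCongrLeft ℂ ℂ
      (Equiv.sigmaUnique (Fin (finrank ℂ T.V))
        (fun _ => ({(Kf z c hc hz).subtype} : Set (Kf z c hc hz →+* ℂ))))), ?_⟩
    intro v hv
    refine ⟨fun i => ⟨e.repr v i, coord T Z hZ hz1 e he v hv hzim i⟩, ?_⟩
    rintro i ⟨φ, hφ⟩
    rw [Set.mem_singleton_iff] at hφ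
    subst hφ
    rfl

end SEU
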