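import Pool.Agent.Lib.SE.U.Spec
import Pool.Agent.Lib.SE.Hyp.hTr

/-!
# PROJECT SE-U: transfer to the Hodge Lie algebra (helper73)
-/

set_option autoImplicit false

open Module

noncomputable section

namespace SEU

open HC HC.E HC.SE SEB SES

namespace uT_aux

open SEH.hTr_aux

variable {T : AV} {r : ℕ}

/-- Complex conjugation of the coordinates. -/
def cj (r : ℕ) : (Fin r → ℂ) →ₛₗ[starRingEnd ℂ] (Fin r → ℂ) where
  toFun v := fun k => (starRingEnd ℂ) (v k)
  map_add' v w := by
    funext k
    exact map_add _ _ _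
  map_smul' c v := by
    funext k
    exact map_mul _ _ _

theorem cj_apply (v : Fin r → ℂ) (k : Fin r) : cj r v k = (starRingEnd ℂ) (v k) := rfl

theorem cj_cj (v : Fin r → ℂ) : cj r (cj r v) = v := by
  funext k
  rw [cj_apply, cj_apply, Complex.conj_conj]

theorem hat_cj (e : Basis (Fin r) ℝ T.V) (X : Module.End ℝ T.V) (v : Fin r → ℂ) :
    hat e X (cj r v) = cj r (hat e X v) := by
  funext k
  rw [cj_apply, hat_apply, hat_apply, map_sum]
  refine Finset.sum_congr rfl fun j _ => ?_
  rw [map_mul, Complex.conj_ofReal, cj_apply]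

theorem hat_one (e : Basis (Fin r) ℝ T.V) : hat e (1 : Module.End ℝ T.V) = 1 := by
  have h1 : mt e (1 : Module.End ℝ T.V) = 1 := by
    apply mt_uniq
    intro k
    rw [Finset.sum_eq_single k, Matrix.one_apply_eq, one_smul]
    · rfl
    · intro i _ hi
      rw [Matrix.one_apply_ne (Ne.symm hi), zero_smul]
    · intro h
      exact absurd (Finset.mem_univ k) h
  apply LinearMap.ext
  intro w
  funext k
  rw [hat_apply, h1, Finset.sum_eq_single k, Matrix.one_apply_eq, Complex.ofReal_one, one_mul]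
  · rfl
  · intro i _ hi
    rw [Matrix.one_apply_ne (Ne.symm hi), Complex.ofReal_zero, zero_mul]
  · intro h
    exact absurd (Finset.mem_univ k) h

theorem hat_J (e : Basis (Fin r) ℝ T.V) : hat e (mulI T) * hat e (mulI T) = -1 := by
  have h1 : mulI T * mulI T = (-1 : ℝ) • (1 : Module.End ℝ T.V) := by
    apply LinearMap.ext
    intro v
    change Complex.I • (Complex.I • v) = (-1 : ℝ) • v
    rw [smul_smul, Complex.I_mul_I, neg_smul, one_smul, neg_smul, one_smul]
  rw [← hat_mul, h1, hat_smul, hat_one, Complex.ofReal_neg, Complex.ofReal_one]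
  exact neg_one_smul ℂ (1 : Module.End ℂ (Fin r → ℂ))

/-- The form `ω(x, σ x)` on the eigenvectors of `J`. -/
theorem om_pos (e : Basis (Fin r) ℝ T.V) (E : T.V →ₗ[ℝ] T.V →ₗ[ℝ] ℝ) (hE : IsRf T E)
    (F : Matrix (Fin r) (Fin r) ℝ) (hF : mE e E * F = 1) (x : Fin r → ℂ) (hx : x ≠ 0)
    (hJ : hat e (mulI T) x = Complex.I • x) : om F x (cj r x) ≠ 0 := by
  obtain ⟨_, hEa, _, hEp⟩ := hE
  set y : Fin r → ℂ := Matrix.mulVec (F.map Complex.ofReal) (cj r x) with hy
  set P : T.V := ∑ l, (y l).re • e l with hP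
  set Q : T.V := ∑ l, (y l).im • e l with hQ
  set a : Frm T := e.constr ℝ x with ha
  have hae : ∀ k, a (e k) = x k := fun k => e.constr_basis ℝ x k
  have hae' : (fun j => a (e j)) = x := funext hae
  have hMy : ∀ k, ∑ l, (mE e E k l : ℂ) * y l = cj r x k := by
    intro k
    have h6 : (mE e E).map Complex.ofReal * F.map Complex.ofReal = 1 := by
      have h7 : (mE e E * F).map Complex.ofRealHom =
          (mE e E).map Complex.ofRealHom * F.map Complex.ofRealHom := Matrix.map_mul
      rw [hF, Matrix.map_one _ (map_zero _) (map_one _)] at h7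
      exact h7.symm
    have h8 : Matrix.mulVec ((mE e E).map Complex.ofReal) y = cj r x := by
      rw [hy, Matrix.mulVec_mulVec, h6, Matrix.one_mulVec]
    exact congrFun h8 k
  have hEP : ∀ k, E (e k) P = ∑ l, mE e E k l * (y l).re := by
    intro k
    rw [hP, map_sum]
    refine Finset.sum_congr rfl fun l _ => ?_
    rw [map_smul, smul_eq_mul, mul_comm]
    rfl
  have hEQ : ∀ k, E (e k) Q = ∑ l, mE e E k l * (y l).im := by
    intro k
    rw [hQ, map_sum]
    refine Finset.sum_congr rfl fun l _ => ?_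
    rw [map_smul, smul_eq_mul, mul_comm]
    rfl
  have hre : Complex.reLm ∘ₗ a = E.flip P := by
    apply e.ext
    intro k
    rw [LinearMap.comp_apply, LinearMap.flip_apply, hEP, hae]
    have h1 := congrArg Complex.re (hMy k)
    rw [Complex.re_sum, cj_apply, Complex.conj_re] at h1
    change (x k).re = _
    rw [← h1]
    exact Finset.sum_congr rfl fun l _ => Complex.re_ofReal_mul _ _
  have him : Complex.imLm ∘ₗ a = -E.flip Q := by
    apply e.ext
    intro k
    rw [LinearMap.comp_apply, LinearMap.neg_apply, LinearMap.flip_apply, hEQ, hae]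
    have h1 := congrArg Complex.im (hMy k)
    rw [Complex.im_sum, cj_apply, Complex.conj_im] at h1
    change (x k).im = _
    rw [← neg_neg (x k).im, ← h1]
    congr 1
    exact Finset.sum_congr rfl fun l _ => Complex.im_ofReal_mul _ _
  have hre' : ∀ v, (a v).re = E v P := fun v => congrArg (fun z : T.V →ₗ[ℝ] ℝ => z v) hre
  have him' : ∀ v, (a v).im = -E v Q := fun v => congrArg (fun z : T.V →ₗ[ℝ] ℝ => z v) him
  have hI : a ∘ₗ mulI T = Complex.I • a := by
    apply e.ext
    intro k
    rw [LinearMap.comp_apply, ← hat_frm, hae', hJ, LinearMap.smul_apply, hae]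
    rfl
  have hI' : ∀ v, a (Complex.I • v) = Complex.I * a v := fun v =>
    congrArg (fun z : Frm T => z v) hI
  have h1 : E P Q = E (Complex.I • P) P := by
    have h2 := congrArg Complex.re (hI' P)
    rw [hre', Complex.I_mul_re, him', neg_neg] at h2
    exact h2.symm
  have h2 : E P Q = E (Complex.I • Q) Q := by
    have h3 := congrArg Complex.im (hI' Q)
    rw [him', Complex.I_mul_im, hre', hEa Q P] at h3
    linarith
  have h3 : 0 < E P Q := by
    by_cases hP0 : P = 0
    · by_cases hQ0 : Q = 0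
      · exfalso
        apply hx
        funext k
        rw [← hae]
        apply Complex.ext
        · rw [hre', hP0, map_zero]
          rfl
        · rw [him', hQ0, map_zero, neg_zero]
          rfl
      · rw [h2]
        exact hEp Q hQ0
    · rw [h1]
      exact hEp P hP0
  have h4 : om F x (cj r x) = a P + Complex.I * a Q := by
    rw [om_apply, ← hy, hP, hQ, map_sum, map_sum, Finset.mul_sum, ← Finset.sum_add_distrib]
    refine Finset.sum_congr rfl fun k _ => ?_
    rw [map_smul, map_smul, hae, Complex.real_smul, Complex.real_smul]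
    conv_lhs => rw [← Complex.re_add_im (y k)]
    ring
  have h5 : (om F x (cj r x)).im = -(2 * E P Q) := by
    rw [h4, Complex.add_im, Complex.I_mul_im, him', hre', hEa Q P]
    ring
  intro h6
  rw [h6, Complex.zero_im] at h5
  linarith

/-- The coordinates. -/
def Ph (e : Basis (Fin r) ℝ T.V) : Frm T →ₗ[ℂ] (Fin r → ℂ) where
  toFun a := fun k => a (e k)
  map_add' _ _ := rfl
  map_smul' _ _ := rfl

theorem Ph_inj (e : Basis (Fin r) ℝ T.V) : Function.Injective (Ph e) := by
  intro a b hab
  exact e.ext fun k => congrFun hab k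

theorem Ph_surj (e : Basis (Fin r) ℝ T.V) : Function.Surjective (Ph e) := fun x =>
  ⟨e.constr ℝ x, funext fun k => e.constr_basis ℝ x k⟩

theorem Ph_pre (e : Basis (Fin r) ℝ T.V) (X : Module.End ℝ T.V) (a : Frm T) :
    Ph e (pre X a) = hat e X (Ph e a) := by
  funext k
  exact (hat_frm e X a k).symm

end uT_aux

open uT_aux SEH.hTr_aux in
theorem tuT : S_uP → S_uT := by
  classical
  intro hP T E hE hd h hh hirr X hX
  have hEa := hE.2.1
  have hEp := hE.2.2.2
  have hdr : finrank ℝ T.V = 4 := by rw [finrank_real_of_complex, hd]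
  obtain ⟨e⟩ : Nonempty (Basis (Fin 4) ℝ T.V) := ⟨finBasisOfFinrankEq ℝ T.V hdr⟩
  set g : Submodule ℂ (Module.End ℂ (Fin 4 → ℂ)) := Submodule.span ℂ (hat e '' h) with hg
  -- the form
  have hdet := mE_det e E hEp
  set F : Matrix (Fin 4) (Fin 4) ℝ := (mE e E)⁻¹ with hF
  have hF1 : F * mE e E = 1 := Matrix.nonsing_inv_mul _ hdet
  have hF2 : mE e E * F = 1 := Matrix.mul_nonsing_inv _ hdet
  have hsk : ∀ Y : Module.End ℝ T.V, (∀ u v, E (Y u) v + E u (Y v) = 0) →
      SEH.Skw (om F) (hat e Y) := fun Y hY =>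
    om_skw e F Y (inv_skw _ F _ hF1 hF2 (mE_skw e E Y hY))
  have hsmp : SEH.Smp (om F) := by
    apply om_smp _ F hF1 hF2
    ext k l
    exact hEa (e l) (e k)
  have hgs : ∀ A ∈ g, SEH.Skw (om F) A := by
    intro A hA
    induction hA using Submodule.span_induction with
    | mem A hA =>
      obtain ⟨Y, hY, rfl⟩ := hA
      exact hsk Y (hh.sk Y hY)
    | zero =>
      intro a b
      rw [LinearMap.zero_apply, LinearMap.zero_apply, map_zero, map_zero]
      simp
    | add A B _ _ h1 h2 =>
      intro a b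
      have h3 := h1 a b
      have h4 := h2 a b
      rw [LinearMap.add_apply, LinearMap.add_apply, map_add, map_add, LinearMap.add_apply]
      linear_combination h3 + h4
    | smul c A _ h1 =>
      intro a b
      have h3 := h1 a b
      rw [LinearMap.smul_apply, LinearMap.smul_apply, map_smul, map_smul, LinearMap.smul_apply,
        smul_eq_mul, smul_eq_mul]
      linear_combination c * h3
  -- commutators
  have hcm : Com h ⊆ h := by
    rintro _ ⟨A, hA, B, hB, rfl⟩
    exact hh.lie.br A hA B hB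
  have hgcom : ∀ A ∈ g, ∀ B ∈ g, A * B - B * A ∈ g := fun A hA B hB =>
    Submodule.span_mono (Set.image_mono hcm) (com_mem e h A B hA hB)
  -- conjugation
  have hgcj : ∀ A ∈ g, ∃ A' ∈ g, ∀ v, A' (cj 4 v) = cj 4 (A v) := by
    intro A hA
    induction hA using Submodule.span_induction with
    | mem A hA =>
      obtain ⟨Y, hY, rfl⟩ := hA
      exact ⟨hat e Y, Submodule.subset_span ⟨Y, hY, rfl⟩, fun v => hat_cj e Y v⟩
    | zero =>
      exact ⟨0, zero_mem _, fun v => by rw [LinearMap.zero_apply, LinearMap.zero_apply, map_zero]⟩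
    | add A B _ _ h1 h2 =>
      obtain ⟨A', hA', h3⟩ := h1
      obtain ⟨B', hB', h4⟩ := h2
      refine ⟨A' + B', add_mem hA' hB', fun v => ?_⟩
      rw [LinearMap.add_apply, LinearMap.add_apply, h3, h4, map_add]
    | smul c A _ h1 =>
      obtain ⟨A', hA', h3⟩ := h1
      refine ⟨(starRingEnd ℂ) c • A', Submodule.smul_mem _ _ hA', fun v => ?_⟩
      rw [LinearMap.smul_apply, LinearMap.smul_apply, h3, map_smulₛₗ]
  -- irreducibility
  have hgirr : ∀ U : Submodule ℂ (Fin 4 → ℂ), (∀ A ∈ g, ∀ u ∈ U, A u ∈ U) → U = ⊥ ∨ U = ⊤ := by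
    intro U hU
    rcases hirr (U.comap (Ph e)) (fun Y hY a ha => by
      rw [Submodule.mem_comap, Ph_pre]
      exact hU _ (Submodule.subset_span ⟨Y, hY, rfl⟩) _ ha) with h1 | h1
    · left
      rw [← Submodule.map_comap_eq_of_surjective (Ph_surj e) U, h1, Submodule.map_bot]
    · right
      rw [← Submodule.map_comap_eq_of_surjective (Ph_surj e) U, h1, Submodule.map_top,
        LinearMap.range_eq_top.2 (Ph_surj e)]
  have h1 : hat e X ∈ Submodule.span ℂ {Y | ∃ A ∈ g, ∃ B ∈ g, Y = A * B - B * A} :=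
    hP (Fin 4 → ℂ) g (om F) (hat e (mulI T)) (cj 4) (by simp) hsmp hgs hgcom
      (hat_span e h _ hh.J) (hat_J e) cj_cj (fun v => (hat_cj e _ v).symm) hgcj
      (fun x hx hJ => om_pos e E hE F hF2 x hx hJ) hgirr (hat e X) (hsk X hX)
  apply real_span e
  refine Submodule.span_le.2 ?_ h1
  rintro _ ⟨A, hA, B, hB, rfl⟩
  exact com_mem e h A B hA hB

end SEU
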