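import Pool.Agent.Lib.SE.U.Asm
import Pool.Agent.Lib.SE.U.uA
import Pool.Agent.Lib.SE.U.uC
import Pool.Agent.Lib.SE.U.uE
import Pool.Agent.Lib.SE.U.uJ
import Pool.Agent.Lib.SE.U.uL
import Pool.Agent.Lib.SE.U.uM
import Pool.Agent.Lib.SE.U.uP
import Pool.Agent.Lib.SE.U.uQ
import Pool.Agent.Lib.SE.U.uR
import Pool.Agent.Lib.SE.U.uS
import Pool.Agent.Lib.SE.U.uT
import Pool.Agent.Lib.SE.Hyp.hR
import Pool.Agent.Lib.SE.G.SpecK
import Pool.Agent.Lib.SE.Big.Gw
import Pool.Agent.Lib.SE.S.DcA

/-!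
# PROJECT SE-U: all abelian surfaces (helper64)
-/

set_option autoImplicit false

open Module

noncomputable section

namespace SEU

open HC HC.E HC.SE SEB SES

theorem modsU : ModsU :=
  ⟨tuQ tuL, tuR, tuS, tuA, tuM, tuJ, tuC, tuT (tuP SEH.thR)⟩

/-- ABELIAN SURFACES: CM type, or real multiplication, or a product of two elliptic curves, or
Hodge Lie algebra `sp(E)` for every Riemann form `E`. -/
theorem thSurf : Surf := surf modsU

/-- An abelian variety of dimension `0` is of CM type. -/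
theorem isCM_zero (T : AV) (h : finrank ℂ T.V = 0) : IsCM T := by
  haveI : Subsingleton T.V := Module.finrank_zero_iff.1 h
  refine ⟨0, fun i => i.elim0, fun i => i.elim0, fun i => i.elim0, fun i => i.elim0,
    fun i => i.elim0, fun i => i.elim0, ?_⟩
  refine ⟨{ toFun := fun _ _ => 0
            invFun := fun _ => 0
            map_add' := fun _ _ => funext fun s => s.1.elim0
            map_smul' := fun _ _ => funext fun s => s.1.elim0
            left_inv := fun _ => Subsingleton.elim _ _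
            right_inv := fun _ => funext fun s => s.1.elim0 }, fun v _ => ⟨fun i => i.elim0,
              fun i => i.elim0⟩⟩

/-- Abelian varieties of dimension at most 2 are isogenous to `A × ∏ G n`, `A` of CM type, `G n`
with real multiplication of degree `dim`, or with Hodge group `Sp`. -/
theorem dc_of_surf (P : AV → Prop) (h1 : ∀ G, IsRM G → P G) (h2 : ∀ G, SES.IsSy G → P G)
    (G : AV) (hd : finrank ℂ G.V ≤ 2) : SES.Dc P G := by
  obtain ⟨hD1, hD2, hD3, -⟩ := SES.tDcA P
  have hdim : finrank ℂ G.V = 0 ∨ finrank ℂ G.V = 1 ∨ finrank ℂ G.V = 2 := by omega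
  rcases hdim with h | h | h
  · exact hD1 G (isCM_zero G h)
  · exact hD2 G (h1 G (tuE G h))
  · rcases thSurf G h with h3 | h3 | ⟨E₁, E₂, h4, h5, h6⟩ | h3
    · exact hD1 G h3
    · exact hD2 G (h1 G h3)
    · exact hD3 G E₁ E₂ (hD2 _ (h1 _ (tuE _ h4))) (hD2 _ (h1 _ (tuE _ h5))) h6
    · obtain ⟨E, hE'⟩ := G.pol
      exact hD2 G (h2 G ⟨by omega, E, hE', h3 E hE'⟩)

/-- The statement used by SE-G. -/
theorem tSur : SEG.S_Sur := ⟨tuE, thSurf⟩

/-- The statement used by SE-G. -/
theorem tMxm : SEG.S_Mxm := SEB.tMx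

end SEU
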