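import Pool.Agent.Lib.SE.U.Spec

/-!
# PROJECT SE-U: all abelian surfaces, assembly (helper64)
-/

set_option autoImplicit false

open Module

noncomputable section

namespace SEU

open HC HC.E HC.SE SEB SES

/-- The modules. -/
structure ModsU : Prop where
  uQ : S_uQ
  uR : S_uR
  uS : S_uS
  uA : S_uA
  uM : S_uM
  uJ : S_uJ
  uC : S_uC
  uT : S_uT

/-- ABELIAN SURFACES: CM type, or real multiplication, or a product of two elliptic curves, or
Hodge Lie algebra `sp(E)` for every Riemann form `E`. -/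
def Surf : Prop :=
  ∀ T : AV, finrank ℂ T.V = 2 → IsCM T ∨ IsRM T ∨
    (∃ E₁ E₂ : AV, finrank ℂ E₁.V = 1 ∧ finrank ℂ E₂.V = 1 ∧ IsProd T E₁ E₂) ∨
    ∀ E, IsRf T E → SpB E

/-- A symmetric endomorphism. -/
theorem of_sym (M : ModsU) {T : AV} (hT : finrank ℂ T.V = 2)
    {E : T.V →ₗ[ℝ] T.V →ₗ[ℝ] ℝ} (hE : IsRf T E) {X : Module.End ℝ T.V} (hr : RatEnd T X)
    (hc : Cx X) (hs : Sy E X) (hn : ¬ Scal X) :
    IsRM T ∨ ∃ E₁ E₂ : AV, finrank ℂ E₁.V = 1 ∧ finrank ℂ E₂.V = 1 ∧ IsProd T E₁ E₂ := by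
  obtain ⟨p, q, h1, h2⟩ := M.uQ T E hE hT X hr hc hs hn
  by_cases hd : ∃ d : ℚ, d ^ 2 = p ^ 2 + 4 * q
  · obtain ⟨d, hd⟩ := hd
    refine Or.inr (M.uS T hT X hr hc hn ((p + d) / 2) ((p - d) / 2) ?_)
    have hd' : (d : ℝ) ^ 2 = (p : ℝ) ^ 2 + 4 * q := by exact_mod_cast hd
    have h3 : (X - (((p + d) / 2 : ℚ) : ℝ) • (1 : Module.End ℝ T.V)) *
        (X - (((p - d) / 2 : ℚ) : ℝ) • (1 : Module.End ℝ T.V)) =
        X * X - (p : ℝ) • X - (q : ℝ) • 1 := by
      have e1 : (((p + d) / 2 : ℚ) : ℝ) = ((p : ℝ) + d) / 2 := by push_cast; ring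
      have e2 : (((p - d) / 2 : ℚ) : ℝ) = ((p : ℝ) - d) / 2 := by push_cast; ring
      rw [e1, e2, sub_mul, mul_sub, mul_sub, smul_mul_assoc, smul_mul_assoc, mul_smul_comm,
        mul_smul_comm, one_mul, mul_one, mul_one, smul_smul]
      have e3 : ((p : ℝ) + d) / 2 * (((p : ℝ) - d) / 2) = -(q : ℝ) := by linarith
      rw [e3]
      have e4 : X * X - (((p : ℝ) - d) / 2) • X - ((((p : ℝ) + d) / 2) • X -
          (-(q : ℝ)) • (1 : Module.End ℝ T.V)) =
          X * X - ((((p : ℝ) - d) / 2) • X + (((p : ℝ) + d) / 2) • X) - (q : ℝ) • 1 := by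
        rw [neg_smul]
        abel
      rw [e4, ← add_smul]
      congr 3
      ring
    rw [h3, h1]
    abel
  · exact Or.inl (M.uR T hT X hr hc p q h1 h2 hd)

theorem surf (M : ModsU) : Surf := by
  intro T hT
  by_cases hsym : ∃ E, IsRf T E ∧ ∃ X : Module.End ℝ T.V, RatEnd T X ∧ Cx X ∧ Sy E X ∧ ¬ Scal X
  · obtain ⟨E, hE, X, hr, hc, hs, hn⟩ := hsym
    rcases of_sym M hT hE hr hc hs hn with h | h
    · exact Or.inr (Or.inl h)
    · exact Or.inr (Or.inr (Or.inl h))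
  · by_cases hsp : ∀ E, IsRf T E → SpB E
    · exact Or.inr (Or.inr (Or.inr hsp))
    · left
      push Not at hsp
      obtain ⟨E, hE, hno⟩ := hsp
      have hsym' : ¬ ∃ X : Module.End ℝ T.V, RatEnd T X ∧ Cx X ∧ Sy E X ∧ ¬ Scal X := fun h =>
        hsym ⟨E, hE, h⟩
      unfold SpB at hno
      push Not at hno
      obtain ⟨h, hh, X, hX, hXn⟩ := hno
      have h1 : ¬ ∀ Y : Module.End ℝ T.V, RatEnd T Y → (∀ X ∈ h, X * Y = Y * X) → Scal Y :=
        fun h2 => hXn (M.uT T E hE hT h hh (M.uC T E hE h hh h2) X hX)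
      push Not at h1
      obtain ⟨Y, hYr, hYc, hYn⟩ := h1
      have hCx : Cx Y := by
        intro v
        have h2 : ∀ J ∈ Submodule.span ℝ h, J * Y = Y * J := by
          intro J hJ
          induction hJ using Submodule.span_induction with
          | mem x hx => exact hYc x hx
          | zero => rw [zero_mul, mul_zero]
          | add x y _ _ hx hy => rw [add_mul, mul_add, hx, hy]
          | smul a x _ hx => rw [smul_mul_assoc, mul_smul_comm, hx]
        exact (LinearMap.congr_fun (h2 _ hh.J) v).symm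
      rcases M.uA T E hE Y hYr hCx hYn with h2 | ⟨Z, c, hZr, hZc, hZs, hc0, hZZ⟩
      · exact absurd h2 hsym'
      · by_cases ht : ∃ t : ℝ, mulI T = t • Z
        · obtain ⟨t, ht⟩ := ht
          exact M.uM T Z c t hZr hc0 hZZ ht
        · push Not at ht
          exact absurd (M.uJ T E hE hT Z c hZr hZc hZs hc0 hZZ ht) hsym'

end SEU
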