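import Pool.Agent.Lib.SE.Hyp.Spec2
import Pool.Agent.Lib.SE.S.Defs

/-!
# PROJECT SE-U: all abelian surfaces (helper64)

Every abelian surface `T` is of CM type, or has real multiplication by a real quadratic field, or is
isogenous to a product of two elliptic curves, or its Hodge Lie algebra is `sp(E)` (`SES.SpB`) for every
Riemann form `E`.

Every module: file `SE/U/uXyz.lean`, `theorem tuXyz : S_uXyz`, namespace `SEU` (after it
`open HC HC.E HC.SE SEB SES`), import `Pool.Agent.Lib.SE.U.Spec` and the proved modules you want. If the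
docstring says `From S_A, S_B` and these are not hypotheses in the statement itself, the theorem is
`tXyz : S_A → S_B → S_Xyz`. Auxiliary lemmas in `namespace SEU.uXyz_aux`.

`T.V` is a complex vector space, `T.L` a lattice (`IsZLattice ℝ`); `RatEnd T X`: every element of `T.L` has a
multiple which `X` maps into `T.L`.
-/

set_option autoImplicit false

open Module

noncomputable section

namespace SEU

open HC HC.E HC.SE SEB SES

/-- `X` is complex linear. -/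
def Cx {T : AV} (X : Module.End ℝ T.V) : Prop := ∀ v, X (Complex.I • v) = Complex.I • X v

/-- `X` is symmetric for `E`. -/
def Sy {T : AV} (E : T.V →ₗ[ℝ] T.V →ₗ[ℝ] ℝ) (X : Module.End ℝ T.V) : Prop :=
  ∀ u v, E (X u) v = E u (X v)

/-- `X` is a scalar. -/
def Scal {T : AV} (X : Module.End ℝ T.V) : Prop := ∃ c : ℝ, X = c • 1

/-! ## Elementary part -/

/-- ELLIPTIC CURVES have real multiplication (`F = ℚ`). PROOF. `ι = algebraMap ℚ (Module.End ℂ B.V)`. -/
def S_uE : Prop := ∀ B : AV, finrank ℂ B.V = 1 → IsRM B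

/-- RATIONAL RELATIONS. PROOF. A real basis `v_1, …, v_n` of `T.V` in `T.L` (`IsZLattice`); the matrices of
`1`, `X`, `Y` have rational entries. `Y = x 1 + y X` with real `x`, `y`, and `1`, `X` are linearly independent, so the
solution of this system of linear equations with rational coefficients is unique, hence rational:
choose two entries `i`, `j` where the determinant of `(1_i, X_i), (1_j, X_j)` is not `0` (Cramer). -/
def S_uL : Prop :=
  ∀ (T : AV) (X Y : Module.End ℝ T.V), RatEnd T X → RatEnd T Y → ¬ Scal X →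
    ∀ x y : ℝ, Y = x • 1 + y • X → ∃ p q : ℚ, x = p ∧ y = q

/-- A SYMMETRIC ELEMENT SATISFIES A RATIONAL QUADRATIC EQUATION. From `S_uL`. PROOF. `⟨u, v⟩ = E (i u) v` is a real inner
product on `T.V` (symmetric by `E (i u) (i v) = E u v` and alternation; positive), `⟨i u, i v⟩ = ⟨u, v⟩`, and `X` is
symmetric for it (`X` commutes with `i`). So `X` has a real eigenvalue `λ₁` with eigenvector `v₁ ≠ 0`
(spectral theorem, or: maximise `⟨X v, v⟩` on the unit sphere; or `LinearMap.IsSymmetric` for the inner product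
space structure given by `⟨·,·⟩`). The complex line `ℂ v₁` and its orthogonal complement `W` for `⟨·,·⟩` are stable under
`X` and `i`, `W` is a complex line, so `X` acts on it as a complex number, and it is symmetric, so real: `λ₂`.
So `(X - λ₁) (X - λ₂) = 0`, and `λ₁ ≠ λ₂` because `X` is not a scalar. `X² = (λ₁ + λ₂) X - λ₁ λ₂`: `S_uL` for
`Y = X²` gives rational `p = λ₁ + λ₂`, `q = - λ₁ λ₂`, `p² + 4 q = (λ₁ - λ₂)² > 0`. -/
def S_uQ : Prop :=
  ∀ (T : AV) (E : T.V →ₗ[ℝ] T.V →ₗ[ℝ] ℝ), IsRf T E → finrank ℂ T.V = 2 →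
    ∀ X : Module.End ℝ T.V, RatEnd T X → Cx X → Sy E X → ¬ Scal X →
    ∃ p q : ℚ, X * X = (p : ℝ) • X + (q : ℝ) • 1 ∧ 0 < p ^ 2 + 4 * q

/-- REAL MULTIPLICATION. PROOF. `f = X² - p X - q` is irreducible over `ℚ` (no rational root, as `p² + 4 q` is not a
square). `F = AdjoinRoot f`, a number field of degree `2`; all its complex embeddings are real because the
roots `(p ± √(p² + 4 q))/2` of `f` are real; `ι = AdjoinRoot.lift`-like: `root ↦` the complex linear map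
`X` (`Cx`), `ι x = a + b X` with rational `a`, `b` is rational. -/
def S_uR : Prop :=
  ∀ T : AV, finrank ℂ T.V = 2 → ∀ X : Module.End ℝ T.V, RatEnd T X → Cx X →
    ∀ p q : ℚ, X * X = (p : ℝ) • X + (q : ℝ) • 1 → 0 < p ^ 2 + 4 * q →
    (¬ ∃ d : ℚ, d ^ 2 = p ^ 2 + 4 * q) → IsRM T

/-- SPLITTING. PROOF. `P = (X - b)/(a - b)`, `P' = 1 - P = (X - a)/(b - a)` are rational complex linear projections,
`P, P' ≠ 0` (`X` is not a scalar), so `V₁ = range P`, `V₂ = range P'` are complex lines (`finrank = 2`) and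
`T.V = V₁ ⊕ V₂`. `E_i = (V_i, T.L ∩ V_i)` (the type of `V_i` is a subspace; norm, complex structure induced):
the lattice `L_i = {x : V_i | x ∈ T.L}` is discrete, it spans `V_i` over `ℝ` (`T.L` spans `T.V`, a multiple of
`P v` is in `T.L` for `v ∈ T.L`); the Riemann form is the restriction of one of `T` (`T.pol`). `ψ = (P, P')`. -/
def S_uS : Prop :=
  ∀ T : AV, finrank ℂ T.V = 2 → ∀ X : Module.End ℝ T.V, RatEnd T X → Cx X → ¬ Scal X →
    ∀ a b : ℚ, (X - (a : ℝ) • (1 : Module.End ℝ T.V)) * (X - (b : ℝ) • (1 : Module.End ℝ T.V)) = 0 →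
    ∃ E₁ E₂ : AV, finrank ℂ E₁.V = 1 ∧ finrank ℂ E₂.V = 1 ∧ IsProd T E₁ E₂

/-- ADJOINTS. PROOF. `E` is nondegenerate (`0 < E (i v) v`) and integral on `T.L`, so the adjoint `Y†`
(`E (Y u) v = E u (Y† v)`) exists and is rational (matrices in a real basis of `T.V` in `T.L`); it is complex
linear because `E (i u) (i v) = E u v`. `Y + Y†` is symmetric, rational, complex linear; if it is not a
scalar: first alternative. Else `Z = Y - Y†` is skew; if `Z = 0` then `Y = (Y + Y†)/2` is a scalar, contradiction.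
`Z²` is symmetric; if it is not a scalar: first alternative. Else `Z² = - c`, `c` is rational (it is a
matrix entry), and `c E (i u) u = E (i Z u) (Z u) > 0` for `Z u ≠ 0`, so `c > 0`. -/
def S_uA : Prop :=
  ∀ (T : AV) (E : T.V →ₗ[ℝ] T.V →ₗ[ℝ] ℝ), IsRf T E →
    ∀ Y : Module.End ℝ T.V, RatEnd T Y → Cx Y → ¬ Scal Y →
    (∃ X : Module.End ℝ T.V, RatEnd T X ∧ Cx X ∧ Sy E X ∧ ¬ Scal X) ∨
    ∃ (Z : Module.End ℝ T.V) (c : ℚ), RatEnd T Z ∧ Cx Z ∧ IsSk E Z ∧ 0 < c ∧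
      Z * Z = -(c : ℝ) • 1

/-- COMPLEX MULTIPLICATION BY AN IMAGINARY QUADRATIC FIELD acting by scalars. PROOF. `Z = s i`, `s = 1/t` real, `s² = c`.
`K = ℚ(√-c)` (for example `AdjoinRoot (X² + c)` over `ℚ`, or a subfield of `ℂ`), a CM field, with the embedding
`φ₀ : K → ℂ`, `√-c ↦ s i`, `Φ = {φ₀}`. `T.V` is a `K`-vector space by `φ₀`, `Z` preserves the `ℚ`-span `Q` of `T.L`,
a `K`-vector space with `dim_ℚ Q = 2 dim_ℂ T.V`, so `dim_K Q = n = dim_ℂ T.V`; a `K`-basis of `Q` spans `T.V` over `ℂ`, so it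
is a `ℂ`-basis `e_1, …, e_n`. `IsCM`: the `n` fields `E_i = K`, `ψ` = the coordinates. -/
def S_uM : Prop :=
  ∀ (T : AV) (Z : Module.End ℝ T.V) (c : ℚ) (t : ℝ), RatEnd T Z → 0 < c → Z * Z = -(c : ℝ) • 1 →
    mulI T = t • Z → IsCM T

/-- SIGNATURE `(1,1)`. PROOF. (1) There is a nonzero real alternating form `β` on `T.V`, rational on `T.L`, with
`β(Z x, y) = β(x, Z y)`: choose `e₁ ∈ T.L`, `e₁ ≠ 0`, and `e₂ ∈ T.L` not in the real span of `e₁`, `Z e₁`; then
`e₁, Z e₁, e₂, Z e₂` is a real basis of `T.V` (`Z² = -c < 0`; the real dimension is `4`), and a multiple of every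
element of `T.L` is an integral combination of them. For `x = a₁ e₁ + b₁ Z e₁ + a₂ e₂ + b₂ Z e₂` and `y` (with
dashes): `β(x, y) = a₁ a₂' - c b₁ b₂' - a₂ a₁' + c b₂ b₁'` (the rational part of the determinant over `ℚ(Z)`).
(2) `β(J x, J y) = β(x, y)` for `J =` multiplication by `i`: let `I' = Z / √c`, `I'² = -1`, it commutes with `J`,
`V₊ = {v | J v = I' v}`, `V₋ = {v | J v = - I' v}`; `v = (v - I' J v)/2 + (v + I' J v)/2`, so `T.V = V₊ ⊕ V₋`, and both are
`≠ T.V` (the hypothesis on `t`: `J ≠ ± I'`), complex subspaces, so complex lines. `x, x' ∈ V₊`: `x' = a x + b I' x`,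
`β(x, I' x) = β(I' x, x) = - β(x, I' x) = 0`, `β(x, x) = 0`, so `β(x, x') = 0` (if `x = 0` trivial); the same for
`V₋`. `x ∈ V₊`, `y ∈ V₋`: `β(J x, J y) = - β(I' x, I' y) = - β(x, I'² y) = β(x, y)`. (3) `X` with
`E(X x, y) = β(x, y)`: exists (`E` nondegenerate), rational (`E`, `β` rational on `T.L`, matrices), symmetric:
`E(X x, y) = β(x, y) = - β(y, x) = - E(X y, x) = E(x, X y)`. `E(X J x, y) = β(J x, y) = - β(x, J y) = - E(X x, J y) =
E(J X x, y)` (`β(J x, J y) = β(x, y)`, `J² = -1`), so `X` is complex linear. `E(X Z x, y) = β(Z x, y) = β(x, Z y) =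
E(X x, Z y) = - E(Z X x, y)`: `X Z = - Z X`, so `X` is not a scalar (`X ≠ 0` as `β ≠ 0`, `Z` is invertible). -/
def S_uJ : Prop :=
  ∀ (T : AV) (E : T.V →ₗ[ℝ] T.V →ₗ[ℝ] ℝ), IsRf T E → finrank ℂ T.V = 2 →
    ∀ (Z : Module.End ℝ T.V) (c : ℚ), RatEnd T Z → Cx Z → IsSk E Z → 0 < c →
    Z * Z = -(c : ℝ) • 1 → (∀ t : ℝ, mulI T ≠ t • Z) →
    ∃ X : Module.End ℝ T.V, RatEnd T X ∧ Cx X ∧ Sy E X ∧ ¬ Scal X

/-! ## The Hodge Lie algebra -/

/-- IRREDUCIBILITY. PROOF. `g` = the complex span of the `pre X`, `X ∈ h`, in `End (Frm T)`. (1) `U` stable under `g` has a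
stable complement: on `Frm T = H¹(T, ℂ)` there is a positive definite hermitian form `H` with
`H(C a, b) = H(a, C† b)`, `C† ∈ conj-g`: precisely, choose `w_a` with ... or in coordinates: `v_k` a real basis
of `T.V` in `T.L`, `Φ a = (a(v_k))_k`, `M` the matrix of the real inner product `⟨u, v⟩ = E (i u) v`, a real symmetric
positive definite matrix, `H(a, b) = (Φ a)ᵀ M⁻¹ conj(Φ b)`. For `X ∈ h`: `⟨X u, v⟩ = ⟨u, X† v⟩` with
`X† = J X J` (`J = mulI`; `E (i X u) v = - E (X u) (i v) = E u (X i v) = E (i u) (i X i v)`), and `J X J = - X - ½ [J, [J, X]]`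
is in the real span of `h`. So the orthogonal complement `U'` of `U` is stable under the `pre X`, `X ∈ h`. (2) If
`U ≠ ⊥, ⊤`, the projection `B` onto `U` along `U'` commutes with all `pre X` and is not a scalar. In the coordinates
`Φ` it is a complex matrix which commutes with the rational matrices `X̂`. Write `B = ∑ β_k B_k`, `β_k` complex numbers
linearly independent over `ℚ` (a basis of the `ℚ`-span of the entries), `B_k` rational matrices: all `B_k`
commute with the `X̂`, and some `B_k` is not a scalar. `B_k = Ŷ` for a real endomorphism `Y` of `T.V` with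
rational matrix, `RatEnd T Y`, `Y X = X Y` for `X ∈ h`: contradiction. -/
def S_uC : Prop :=
  ∀ (T : AV) (E : T.V →ₗ[ℝ] T.V →ₗ[ℝ] ℝ), IsRf T E → ∀ h : Set (Module.End ℝ T.V), SES.HLieS E h →
    (∀ Y : Module.End ℝ T.V, RatEnd T Y → (∀ X ∈ h, X * Y = Y * X) → Scal Y) →
    ∀ U : Submodule ℂ (Frm T), (∀ X ∈ h, ∀ u ∈ U, pre X u ∈ U) → U = ⊥ ∨ U = ⊤

/-- DIMENSION `4`. From `SEH.S_hR`. PROOF. `W^± = {v | J v = ± i v}`, `V = W⁺ ⊕ W⁻`, `σ` exchanges them, so
`dim W^± = 2`. `J` skew: `ω(W⁺, W⁺) = 0 = ω(W⁻, W⁻)`. For `C ∈ g`: the components `C₊, C₀, C₋` of `C` for the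
eigenvalues `2 i, 0, -2 i` of `ad J` are in `g` (`[J, [J, C]]` etc.); `C₊` maps `W⁻` to `W⁺` and `W⁺` to `0`. Let
`g₊ = {C ∈ g | [J, C] = 2 i C}`; `g₋ = {σ C σ}`. (a) If `g₊ = 0`, then `g₋ = 0`, `W⁺` is stable, contradiction.
(b) If some `0 ≠ C ∈ g₊` has a kernel on `W⁻`: `w ∈ W⁻`, `w ≠ 0`, `C w = 0`. `γ(v, v') = ω(C v, v')` is symmetric on
`W⁻` (skewness), `γ(w, ·) = 0`, so `C = φ.smulRight x`, `x ∈ W⁺`, `x ≠ 0`, `φ` zero on `W⁺` and `w`. Then also
`σ C σ = ψ.smulRight y`, `y = σ x`. `φ = c ω(x, ·)` (skewness, `c ≠ 0`), so `φ y = c ω(x, σ x) ≠ 0`, similarly `ψ x ≠ 0`: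
`S_hR`. (c) If two elements `C, C'` of `g₊` are linearly independent: `det (γ_C + t γ_(C'))` on `W⁻` (a basis) is a
polynomial in `t` of degree `2` if `γ_(C')` is nondegenerate (else (b) for `C'`), it has a root `t ∈ ℂ`, and (b) applies to
`C + t C' ≠ 0`. (d) Otherwise `g₊ = ℂ Q`, `γ = γ_Q` nondegenerate symmetric on `W⁻`, `dim W⁻ = 2`: there is an
isotropic `w ∈ W⁻`, `w ≠ 0`, `γ(w, w) = 0`. `Q̄ = σ Q σ` spans `g₋`. For `X₀ ∈ g` with `[J, X₀] = 0`:
`[X₀, Q] ∈ g₊` is `χ Q`, so `γ(X₀ v, v') + γ(v, X₀ v') = χ' γ(v, v')`, `γ(X₀ w, w) = 0`, so `X₀ w ∈ ℂ w` (the orthogonal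
of `w` for `γ` is `ℂ w`). `U = ℂ w + ℂ Q w`: `X₀ Q w = Q X₀ w + χ Q w ∈ ℂ Q w`, `Q w ∈ U`, `Q Q w = 0`, `Q̄ w = 0`,
`Q̄ Q w = - [Q, Q̄] w ∈ ℂ w` (`[Q, Q̄] ∈ g` commutes with `J`). So `U` is stable, of dimension `≤ 2`, not `⊥`:
contradiction. -/
def S_uP : Prop :=
  ∀ (V : Type) [AddCommGroup V] [Module ℂ V] [FiniteDimensional ℂ V]
    (g : Submodule ℂ (Module.End ℂ V)) (ω : V →ₗ[ℂ] V →ₗ[ℂ] ℂ) (J : Module.End ℂ V)
    (σ : V →ₛₗ[starRingEnd ℂ] V),
    finrank ℂ V = 4 → SEH.Smp ω → (∀ X ∈ g, SEH.Skw ω X) →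
    (∀ X ∈ g, ∀ Y ∈ g, X * Y - Y * X ∈ g) → J ∈ g → J * J = -1 →
    (∀ v, σ (σ v) = v) → (∀ v, σ (J v) = J (σ v)) →
    (∀ X ∈ g, ∃ X' ∈ g, ∀ v, X' (σ v) = σ (X v)) →
    (∀ x, x ≠ 0 → J x = Complex.I • x → ω x (σ x) ≠ 0) →
    (∀ U : Submodule ℂ V, (∀ X ∈ g, ∀ u ∈ U, X u ∈ U) → U = ⊥ ∨ U = ⊤) →
    ∀ Y : Module.End ℂ V, SEH.Skw ω Y →
      Y ∈ Submodule.span ℂ {Y | ∃ A ∈ g, ∃ B ∈ g, Y = A * B - B * A}

/-- TRANSFER. From `S_uP`. PROOF. As the second part of `SEH.S_hTr` (SE/Hyp/hTr.lean; its auxiliary lemmas can be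
imported or copied): `v_k` (`k < 4`) a real basis of `T.V` in `T.L`, `Φ a = (a(v_k))_k : Frm T ≃ ℂ^4`, `X ↦ X̂`, the
symplectic form `ω(w, w') = wᵀ F w'`, `F` the inverse of the matrix `E(v_k, v_l)`; `X` is skew for `E` iff `X̂` is skew
for `ω`. `g` = the complex span of the `X̂`, `X ∈ h`; `σ` = complex conjugation of the coordinates, `X̂ (σ w) = σ (X̂ w)` for
real `X`, so `g` is stable. `J = (mulI)^`. `J x = i x`, `x = Φ a`, `a` complex linear: `ω(x, σ x)` is `0` only for `a = 0`: with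
`u ∈ T.V ⊗ ℂ` defined by `x_k = E(u, v_k)` ... directly: `x = p + i p'`, `p, p'` real vectors, `ω(x, σ x) = - 2 i ω(p, p')`;
let `P, P' ∈ T.V` be the vectors with `E(P, v_k) = p_k`, `E(P', v_k) = p'_k`; `J x = i x` says `a(i v) = i a(v)`, that is
`E(P, i v) = - E(P', v)`, so `P' = i P` (`E(P, i v) = - E(i P, v)`), and `ω(p, p') = ± E(P, P') = ± E(P, i P) ≠ 0` for `P ≠ 0`.
Irreducibility: the hypothesis transported by `Φ`. -/
def S_uT : Prop :=
  ∀ (T : AV) (E : T.V →ₗ[ℝ] T.V →ₗ[ℝ] ℝ), IsRf T E → finrank ℂ T.V = 2 →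
    ∀ h : Set (Module.End ℝ T.V), SES.HLieS E h →
    (∀ U : Submodule ℂ (Frm T), (∀ X ∈ h, ∀ u ∈ U, pre X u ∈ U) → U = ⊥ ∨ U = ⊤) →
    ∀ X, IsSk E X → X ∈ Submodule.span ℝ (Com h)

end SEU
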